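import Pool.Agent.Lib.MP_2c6a5a_lc.RO.Prob

/-! The level process and the Borel-Cantelli argument. -/

namespace Pool.Agent.Lib.MP_2c6a5a_lc.RO

open MeasureTheory Set Filter
open scoped ENNReal Topology

open Classical in
/-- the level goes up by one at each failure -/
noncomputable def lev (Fl : ℕ → ℕ → Set Om) (A : Om) : ℕ → ℕ
  | 0 => 0
  | k + 1 => if A ∈ Fl k (lev Fl A k) then lev Fl A k + 1 else lev Fl A k

variable {Fl tb TB : ℕ → ℕ → Set Om} {a : ℕ → ℕ}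

theorem lev_succ (A : Om) (k : ℕ) :
    lev Fl A k ≤ lev Fl A (k + 1) ∧ lev Fl A (k + 1) ≤ lev Fl A k + 1 := by
  rw [lev]; split_ifs <;> omega

theorem lev_mono (A : Om) : Monotone (lev Fl A) :=
  monotone_nat_of_le_succ fun k => (lev_succ A k).1

theorem lev_le (A : Om) (k : ℕ) : lev Fl A k ≤ k := by
  induction k with
  | zero => exact le_rfl
  | succ k ih => exact (lev_succ A k).2.trans (by omega)

theorem lev_dep (ha : Monotone a) (hF : ∀ k h, h ≤ k → Dep (lo (a (k + 1))) (Fl k h)) (k : ℕ)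
    (A B : Om) (e : ∀ s ∈ lo (a k), A s = B s) : lev Fl A k = lev Fl B k := by
  induction k with
  | zero => rfl
  | succ k ih =>
    have := ih fun s m => e s (lo_mono (ha (Nat.le_succ k)) m)
    have h2 := (hF k _ (lev_le (Fl := Fl) A k)).iff e
    rw [lev, lev, ← this]
    by_cases c : A ∈ Fl k (lev Fl A k)
    · rw [if_pos c, if_pos (h2.1 c)]
    · rw [if_neg c, if_neg (mt h2.2 c)]

theorem lev_hit {A : Om} {h K : ℕ} (hK : h < lev Fl A K) :
    ∃ k, h ≤ k ∧ lev Fl A k = h ∧ A ∈ Fl k h := by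
  induction K with
  | zero => simp [lev] at hK
  | succ K ih =>
    by_cases c : h < lev Fl A K
    · exact ih c
    · rw [lev] at hK
      split_ifs at hK with d
      · obtain rfl : h = lev Fl A K := by omega
        exact ⟨K, lev_le A K, rfl, d⟩
      · exact (c hK).elim

theorem never_null {E : ℕ → Set Om} (ha : Monotone a) {r : ℝ≥0∞} (hr : r < 1) (K : ℕ)
    (h1 : ∀ k, K ≤ k → Dep (lo (a (k + 1))) (E k)) (h2 : ∀ k, K ≤ k → Dep (lo (a k))ᶜ (E k))
    (h3 : ∀ k, K ≤ k → mu (E k) ≤ r) : mu {A | ∀ k, K ≤ k → A ∈ E k} = 0 := by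
  have h4 : ∀ m, Dep (lo (a (K + m))) {A | ∀ i < m, A ∈ E (K + i)} := fun m A B e b i hi =>
    h1 _ (by omega) A B (fun s c => e s (lo_mono (ha (by omega)) c)) (b i hi)
  have h5 : ∀ m, mu {A | ∀ i < m, A ∈ E (K + i)} ≤ r ^ m := by
    intro m
    induction m with
    | zero => simp
    | succ m ih =>
      have : {A | ∀ i < m + 1, A ∈ E (K + i)} = {A | ∀ i < m, A ∈ E (K + i)} ∩ E (K + m) := by
        ext A; exact Nat.forall_lt_succ_right
      rw [this, indep (h4 m) (h2 _ (by omega)) (h4 m).fd (h1 _ (by omega)).fd, pow_succ]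
      exact mul_le_mul' ih (h3 _ (by omega))
  refine le_antisymm (ge_of_tendsto' (ENNReal.tendsto_pow_atTop_nhds_zero_of_lt_one hr)
    fun m => le_trans (measure_mono ?_) (h5 m)) zero_le
  exact fun A b i _ => b _ (by omega)

theorem bc_main (ha : Monotone a) (hF : ∀ k h, h ≤ k → Dep (lo (a (k + 1))) (Fl k h))
    (h1 : ∀ k h, h ≤ k → Dep (lo (a (k + 1))) (tb k h))
    (h2 : ∀ k h, h ≤ k → Dep (lo (a k))ᶜ (tb k h))
    (h3 : ∀ h, ∃ r < 1, ∀ᶠ k in atTop, mu (tb k h)ᶜ ≤ r) (c : ℕ)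
    (h4 : ∀ᶠ k in atTop, ∀ h ≤ k, ∀ P, Dep (lo (a k)) P →
      mu (P ∩ tb k h ∩ (TB k h)ᶜ) ≤ 2⁻¹ ^ h * (c * mu (P ∩ Fl k h) + 2⁻¹ ^ k)) :
    ∀ᵐ A ∂mu, (∀ᶠ k in atTop, A ∉ TB k (lev Fl A k)) →
      (∀ᶠ k in atTop, A ∉ tb k (lev Fl A k)) ∧ ∀ h, ∃ k, h ≤ k ∧ lev Fl A k = h ∧ A ∈ Fl k h := by
  obtain ⟨K, h4⟩ := eventually_atTop.1 h4
  let P : ℕ → ℕ → Set Om := fun k h => {A | lev Fl A k = h}
  have hP : ∀ k h, Dep (lo (a k)) (P k h) := fun k h A B e b => (lev_dep ha hF k A B e).symm.trans b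
  let bad : ℕ → Set Om := fun k => {A | K ≤ k ∧ A ∈ tb k (lev Fl A k) ∧ A ∉ TB k (lev Fl A k)}
  have b1 : ∀ k, mu (bad k) ≤ ∑' h, 2⁻¹ ^ h * (c * mu (P k h ∩ Fl k h) + 2⁻¹ ^ k) := by
    intro k
    by_cases d : K ≤ k
    · refine le_trans (measure_mono (t := ⋃ h, P k h ∩ tb k h ∩ (TB k h)ᶜ)
        fun A b => mem_iUnion.2 ⟨_, ⟨rfl, b.2.1⟩, b.2.2⟩) ((measure_iUnion_le _).trans
          (ENNReal.tsum_le_tsum fun h => ?_))
      by_cases e : h ≤ k
      · exact h4 k d h e _ (hP k h)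
      · have : P k h = ∅ := eq_empty_of_forall_notMem fun A b => e (b ▸ lev_le A k)
        simp [this]
    · have : bad k = ∅ := eq_empty_of_forall_notMem fun A b => d b.1
      simp [this]
  have b2 : ∀ h, ∑' k, mu (P k h ∩ Fl k h) ≤ 1 := by
    intro h
    have m : ∀ k, MeasurableSet (P k h ∩ Fl k h) := fun k => by
      by_cases e : h ≤ k
      · exact ((hP k h).fd.inter (hF k h e).fd).meas
      · have : P k h = ∅ := eq_empty_of_forall_notMem fun A b => e (b ▸ lev_le A k)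
        simp [this]
    have d : ∀ i j, i < j → Disjoint (P i h ∩ Fl i h) (P j h ∩ Fl j h) := fun i j l =>
      disjoint_left.2 fun A b b' => by
        have e1 : lev Fl A i = h := b.1
        have e2 : lev Fl A j = h := b'.1
        have e3 := lev_mono (Fl := Fl) A (show i + 1 ≤ j from l)
        rw [lev, e1, if_pos b.2] at e3
        omega
    rw [← measure_iUnion (fun i j n => (lt_or_gt_of_ne n).elim (d i j) fun l => (d j i l).symm) m]
    exact prob_le_one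
  have b3 : ∑' k, mu (bad k) ≠ ∞ := by
    refine ne_top_of_le_ne_top (b := ∑' h : ℕ, 2⁻¹ ^ h * (c + 2)) ?_
      ((ENNReal.tsum_le_tsum b1).trans ?_)
    · rw [ENNReal.tsum_mul_right, ENNReal.tsum_geometric]
      exact ENNReal.mul_ne_top (by simp) (by simp)
    · rw [ENNReal.tsum_comm]
      refine ENNReal.tsum_le_tsum fun h => ?_
      rw [ENNReal.tsum_mul_left, ENNReal.tsum_add, ENNReal.tsum_mul_left, ENNReal.tsum_geometric]
      gcongr
      · exact mul_le_of_le_one_right' (b2 h)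
      · simp
  have b4 : ∀ᵐ A ∂mu, ∀ h k0, ∃ k, k0 ≤ k ∧ A ∈ tb k h := by
    simp only [ae_all_iff]
    intro h k0
    obtain ⟨r, hr, H⟩ := h3 h
    obtain ⟨k1, H⟩ := eventually_atTop.1 H
    refine measure_mono_null ?_
      (never_null (E := fun k => (tb k h)ᶜ) ha hr (k0 + k1 + h) (fun k l => (h1 k h (by omega)).compl)
        (fun k l => (h2 k h (by omega)).compl) fun k l => H k (by omega))
    exact fun A b k l d => b ⟨k, by omega, d⟩
  filter_upwards [ae_eventually_notMem b3, b4] with A e1 e2 e3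
  have e4 : ∀ᶠ k in atTop, A ∉ tb k (lev Fl A k) := by
    filter_upwards [e1, e3, eventually_ge_atTop K] with k x y z w
    exact x ⟨z, w, y⟩
  refine ⟨e4, fun h => ?_⟩
  by_contra n
  have e5 : ∀ k, lev Fl A k ≤ h := fun k => not_lt.1 fun l => n (lev_hit l)
  obtain ⟨k1, hk⟩ := eventually_atTop.1 e4
  obtain ⟨h', k2, e6⟩ : ∃ h' k2, ∀ k, k2 ≤ k → lev Fl A k = h' := by
    have f : (Set.range (lev Fl A)).Finite :=
      (Set.finite_le_nat h).subset fun _ ⟨k, e⟩ => e ▸ e5 k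
    obtain ⟨_, ⟨k2, rfl⟩, m⟩ := f.exists_maximal (range_nonempty _)
    exact ⟨_, k2, fun k l => le_antisymm (m ⟨k, rfl⟩ (lev_mono A l)) (lev_mono A l)⟩
  obtain ⟨k, l, m⟩ := e2 h' (k1 + k2)
  exact hk k (by omega) (by rwa [e6 k (by omega)])

end Pool.Agent.Lib.MP_2c6a5a_lc.RO
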