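import Pool.Agent.Lib.MP_2c6a5a_lc.RO.Loc
import Pool.Agent.Lib.MP_2c6a5a_lc.RO.BC

/-! The level is computed in polynomial time by exhaustive search at the earlier scales. -/

namespace Pool.Agent.Lib.MP_2c6a5a_lc.RO

open Pool.Agent.Lib.MP_8a52c3_lc.Orc Pool.Agent.Lib.MP_2c6a5a_lc.U Function

variable {A : Om} {n : ℕ} {g p : St → L}

theorem nxt_eq (w : L) : nxt w = (List.cons false)^[(w.drop (sk w).length).length]
    (cnd (sk w) [false] (true :: (sk w).tail) []) := by
  induction w with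
  | nil => rfl
  | cons b w ih =>
    cases b
    · have : sk (false :: w) = false :: w := iterate_fixed rfl _
      simp [this, nxt, cnd]
    · have e : sk (true :: w) = sk w := rfl
      have l : (sk w).length ≤ w.length := iter_le sk1_le _ _
      rw [e, List.length_drop, List.length_cons, Nat.sub_add_comm l, iterate_succ_apply', nxt, ih,
        List.length_drop]

theorem nxt_fp : FP1 A nxt :=
  PF.fp1 ((PF.iter1 (PF.fp1 (PF.v0.cons false)) (fun _ => le_rfl) (PF.v0.sk.cnd (PF.const [false])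
    (PF.v0.sk.tail.cons true) PF.nil) (PF.v0.sk.drop PF.v0)).of_eq fun _ => (nxt_eq _).symm)

theorem pf_enum (hg : PF A n g) : PF A n fun σ => nxt^[(g σ).length] [] :=
  PF.iter1 nxt_fp nxt_len PF.nil hg

/-- truncated exponential -/
def ee (p v : L) : L := (fun w => (w ++ w).take p.length)^[v.length] [true]

theorem pf_ee (hp : PF A n p) (hg : PF A n g) : PF A n fun σ => ee (p σ) (g σ) :=
  PF.iter (F := fun p w => (w ++ w).take p.length) (PF.fp2 (PF.v0.take (PF.v1.append PF.v1)))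
    ⟨fun s => s, Pol.id, monotone_id, fun _ _ => le_add_left (List.length_take_le _ _)⟩ hp
    (PF.const [true]) hg

theorem ee_eq {p : L} (hp : 1 ≤ p.length) (v : L) : ee p v = un (min (2 ^ v.length) p.length) := by
  unfold ee
  induction v.length with
  | zero => simp [un, hp]
  | succ m ih =>
    rw [iterate_succ_apply', ih, un, un, ← List.replicate_add, List.take_replicate, pow_succ]
    congr 1
    omega

/-- predicates of the scale, the level and a string that are decided with enough padding -/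
def BF (A : Om) (Ψ : ℕ → ℕ → L → Prop) : Prop :=
  ∃ R, DR A R ∧ ∀ (p : L) a h y, nx a ≤ p.length → (R (pr p (pr (un a) (un h))) y ↔ Ψ a h y)

variable {Ψ Φ : ℕ → ℕ → L → Prop}

theorem BF.not (h : BF A Ψ) : BF A fun a h y => ¬ Ψ a h y :=
  let ⟨R, h1, h2⟩ := h
  ⟨fun q y => ¬ R q y, PD.not h1, fun p a h y l => not_congr (h2 p a h y l)⟩

theorem BF.and (h : BF A Ψ) (h' : BF A Φ) : BF A fun a h y => Ψ a h y ∧ Φ a h y :=
  let ⟨R, h1, h2⟩ := h
  let ⟨R', h3, h4⟩ := h'
  ⟨fun q y => R q y ∧ R' q y, PD.and h1 h3, fun p a h y l => and_congr (h2 p a h y l) (h4 p a h y l)⟩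

theorem BF.of_iff (h : BF A Ψ) (e : ∀ a h y, Ψ a h y ↔ Φ a h y) : BF A Φ :=
  let ⟨R, h1, h2⟩ := h
  ⟨R, h1, fun p a h y l => (h2 p a h y l).trans (e a h y)⟩

theorem BF.or (h : BF A Ψ) (h' : BF A Φ) : BF A fun a h y => Ψ a h y ∨ Φ a h y :=
  (h.not.and h'.not).not.of_iff fun _ _ _ => by tauto

theorem BF.ex (h : BF A Ψ) (hb : ∀ a h y, Ψ a h y → 2 ^ (y.length + 1) ≤ nx a) :
    BF A fun a h _ => ∃ y, Ψ a h y := by
  obtain ⟨R, h1, h2⟩ := h
  refine ⟨fun q _ => ¬ ∀ j < (fst q).length, ¬ R q (nxt^[(un j).length] []),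
    (PD.ball (R := fun q u => ¬ R q (nxt^[u.length] [])) (h1.app PF.v0 (pf_enum PF.v1)).not
      PF.v0 PF.v0.fst).not, fun p a h _ l => ?_⟩
  simp only [fst_pr, un_length, h2 p a h _ l, not_forall, not_not]
  refine ⟨fun ⟨_, _, b⟩ => ⟨_, b⟩, fun ⟨y, b⟩ => ?_⟩
  obtain ⟨j, c, rfl⟩ := exists_index y
  exact ⟨j, by have := hb _ _ _ b; omega, b⟩

theorem bf_vv (c : L) : BF A fun a h w => A ∈ VV c a h w := by
  have ha : PF A 2 fun σ => fst (snd (σ 0)) := PF.v0.snd.fst
  have h1 := pf_ee PF.v0.fst ha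
  refine ⟨fun q w => w.length ≤ (ee (fst q) (un ((fst (snd q)).length ^ 2))).length ∧
    univ A (pr c (ee (fst q) (un ((fst (snd q)).length ^ 3))))
      (pr ((univ A (pr (fst (nxt^[(snd (snd q)).length] [])) (ee (fst q) (fst (snd q))))
        (fst (snd q))).take (ee (fst q) (fst (snd q))).length) w) = [true],
    (PF.v1.le (pf_ee PF.v0.fst (ha.pw 2))).and ((((PF.const c).pr (pf_ee PF.v0.fst (ha.pw 3))).univ
      ((h1.take (((pf_enum PF.v0.snd.snd).fst.pr h1).univ ha)).pr PF.v1)).eq (PF.const [true])),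
    fun p a h w l => ?_⟩
  have := nx_ge a
  simp only [fst_pr, snd_pr, un_length, ee_eq (show 1 ≤ p.length by omega),
    min_eq_left (show 2 ^ a ≤ p.length by omega), min_eq_left (show 2 ^ a ^ 2 ≤ p.length by omega),
    min_eq_left (show 2 ^ a ^ 3 ≤ p.length by omega)]
  rfl

theorem bf_acc (c : L) : BF A fun a h _ => A ∈ Acc (VV c a h) :=
  (bf_vv c).ex fun a _ _ b => Nat.pow_le_pow_right (by omega) (by
    have := b.1
    have := nx_ge a
    omega)

/-- the zero blocks with index in `J` and length `l` are recognised in polynomial time -/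
def ZR (A : Om) (J : ℕ → Finset L) (l : ℕ → ℕ → ℕ) : Prop :=
  (∀ a, Len (a ^ 4 + 1) (J a)) ∧
    ∃ R, DR A R ∧ ∀ a h y, R (pr (un a) (un h)) y ↔ y ∈ J a ∧ A ∈ Z (blk (l a h) y)

variable {J : ℕ → Finset L} {l : ℕ → ℕ → ℕ}

theorem ZR.bf (h : ZR A J l) : BF A fun a h _ => A ∈ Has (l a h) (J a) := by
  obtain ⟨h0, R, h1, h2⟩ := h
  refine BF.ex (Ψ := fun a h y => y ∈ J a ∧ A ∈ Z (blk (l a h) y))
    ⟨fun q y => R (snd q) y, h1.app PF.v0.snd PF.v1, fun p a h y _ => by simp only [snd_pr, h2]⟩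
    fun a h y b => Nat.pow_le_pow_right (by omega) ?_
  have := nx_ge a
  rw [h0 a y b.1]
  omega

theorem pd_zero (hg : PF A n g) (hp : PF A n p) :
    PD A n fun σ => A ∈ Z (blk (g σ).length (p σ)) :=
  (PD.ball (R := fun y u => [A (y ++ u)] = [false])
    ((PF.v0.append PF.v1).query.eq (PF.const [false])) hp hg).of_iff fun σ => by
      simp [mem_Z_blk, un]

theorem pd_len : PD A 2 fun σ => (σ 1).length = (fst (σ 0)).length ^ 4 + 1 :=
  ((PF.v1.le ((PF.v0.fst.pw 4).cons true)).and (((PF.v0.fst.pw 4).cons true).le PF.v1)).of_iff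
    fun σ => by simp only [List.length_cons, un_length]; omega

theorem pd_side (b : Bool) : PD A 2 fun σ => σ 1 ∈ side b ((fst (σ 0)).length ^ 4) :=
  (pd_len.and (((PF.const [b]).take PF.v1).eq (PF.const [b]))).of_iff fun _ => mem_side.symm

theorem zr_np (b : Bool) : ZR A (fun a => side b (a ^ 4)) fun a h => a ^ 4 + h :=
  ⟨fun _ => len_side, fun q y => y ∈ side b ((fst q).length ^ 4) ∧
    A ∈ Z (blk (un ((fst q).length ^ 4) ++ snd q).length y),
    (pd_side b).and (pd_zero ((PF.v0.fst.pw 4).append PF.v0.snd) PF.v1), fun a h y => by simp⟩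

theorem zr_co (b : Bool) : ZR A (fun a => side b (a ^ 4)) fun a h => a ^ 4 - h :=
  ⟨fun _ => len_side, fun q y => y ∈ side b ((fst q).length ^ 4) ∧
    A ∈ Z (blk ((un ((fst q).length ^ 4)).drop (snd q).length).length y),
    (pd_side b).and (pd_zero (PF.v0.snd.drop (PF.v0.fst.pw 4)) PF.v1), fun a h y => by simp⟩

theorem zr_up : ZR A (fun a => strs (a ^ 4 + 1)) fun a h => a ^ 4 + (h + 2) :=
  ⟨fun _ => len_strs, fun q y => y.length = (fst q).length ^ 4 + 1 ∧
    A ∈ Z (blk (un ((fst q).length ^ 4) ++ true :: true :: snd q).length y),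
    pd_len.and (pd_zero ((PF.v0.fst.pw 4).append ((PF.v0.snd.cons true).cons true)) PF.v1),
    fun a h y => by simp [mem_strs]⟩

/-- truncated next scale -/
def nn (p v : L) : L := ee p (ee p v ++ ee p (un (v.length ^ 2)) ++ ee p (un (v.length ^ 3)) ++
  un (v.length ^ 4) ++ v ++ [true, true])

theorem nn_eq {p : L} (hp : 1 ≤ p.length) (v : L) : nn p v = un (min (nx v.length) p.length) := by
  simp only [nn, ee_eq hp, List.length_append, un_length, nx, List.length_cons, List.length_nil]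
  congr 1
  generalize 2 ^ v.length = x
  generalize 2 ^ v.length ^ 2 = y
  generalize 2 ^ v.length ^ 3 = z
  by_cases c : x ≤ p.length ∧ y ≤ p.length ∧ z ≤ p.length
  · rw [min_eq_left c.1, min_eq_left c.2.1, min_eq_left c.2.2]
  · rw [min_eq_right (le_trans (by omega) Nat.lt_two_pow_self.le),
      min_eq_right (le_trans (by omega) Nat.lt_two_pow_self.le)]

theorem lev_fp {Fl : ℕ → ℕ → Set Om} (hF : BF A fun a h _ => A ∈ Fl a h) :
    ∃ G, FP1 A G ∧ (∀ k x, x.length = sc k →
      G x = pr (un (sc k)) (un (lev (fun k => Fl (sc k)) A k))) ∧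
      ∀ x, (fst (G x)).length = x.length → ∃ k, x.length = sc k := by
  classical
  obtain ⟨R, h1, h2⟩ := hF
  let stp : L → L → L := fun p s => if p.length ≤ (true :: fst s).length then s else
    pr (nn p (fst s)) (if R (pr p s) [] then true :: snd s else snd s)
  have hv : PF A 2 fun σ => fst (σ 1) := PF.v1.fst
  have hs : FP2 A stp := PF.fp2 ((PF.v0.le (hv.cons true)).ite PF.v1 ((pf_ee PF.v0
    ((((((pf_ee PF.v0 hv).append (pf_ee PF.v0 (hv.pw 2))).append (pf_ee PF.v0 (hv.pw 3))).append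
      (hv.pw 4)).append hv).append (PF.const [true, true]))).pr
    ((h1.app (PF.v0.pr PF.v1) PF.nil).ite (PF.v1.snd.cons true) PF.v1.snd)))
  have h3 : ∀ (x : L) k, sc k ≤ x.length → (stp (true :: x))^[k] (pr [] []) =
      pr (un (sc k)) (un (lev (fun k => Fl (sc k)) A k)) := by
    intro x k
    induction k with
    | zero => exact fun _ => rfl
    | succ k ih =>
      intro c
      have d : sc k < sc (k + 1) := sc_mono (Nat.lt_succ_self k)
      have e : nx (sc k) ≤ (true :: x).length := le_trans c (by simp)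
      rw [iterate_succ_apply', ih (by omega)]
      simp only [stp, fst_pr, snd_pr, h2 _ _ _ _ e, lev]
      rw [if_neg (by simp; omega), nn_eq (by simp), un_length, min_eq_left e]
      split_ifs <;> rfl
  have h4 : ∀ (p s : L) j k, j ≤ k → p.length ≤ (true :: fst ((stp p)^[j] s)).length →
      (stp p)^[k] s = (stp p)^[j] s := fun p s j k c d => by
    obtain ⟨i, rfl⟩ := Nat.exists_eq_add_of_le' c
    rw [iterate_add_apply]
    exact iterate_fixed (f := stp p) (if_pos d) i
  refine ⟨fun x => (stp (true :: x))^[(true :: x).length] (pr [] []), PF.fp1 (PF.iter hs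
    ⟨fun s => 2 * s + 2, ((Pol.const 2).mul Pol.id).add (Pol.const 2), fun _ _ c => by simp; omega,
      fun p s => ?_⟩ (PF.v0.cons true) (PF.nil.pr PF.nil) (PF.v0.cons true)), fun k x e => ?_,
    fun x e => ?_⟩
  · have := snd_le s
    simp only [stp]
    split_ifs with c d
    · omega
    all_goals
      rw [nn_eq (by simp at c; omega)]
      simp only [pr_length, un_length, List.length_cons]
      omega
  · have := le_sc k
    simp only []
    rw [h4 _ _ k _ (by simp; omega) (by rw [h3 x k e.ge]; simp [e]), h3 x k e.ge]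
  · by_contra c
    have hx : ∃ k, x.length < sc (k + 1) := ⟨x.length, le_sc _⟩
    have d := Nat.find_spec hx
    have d' : sc (Nat.find hx) ≤ x.length := by
      rcases f : Nat.find hx with _ | k
      · exact Nat.zero_le _
      · exact not_lt.1 (Nat.find_min hx (by omega))
    generalize Nat.find hx = k at d d'
    have d2 : sc k < x.length := lt_of_le_of_ne d' fun f => c ⟨k, f.symm⟩
    have := le_sc k
    have f : (fst ((stp (true :: x))^[k + 1] (pr [] []))).length = x.length + 1 := by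
      rw [iterate_succ_apply', h3 x k d']
      simp only [stp, fst_pr]
      rw [if_neg (by simp; omega), fst_pr, nn_eq (by simp), un_length, un_length]
      exact min_eq_right d
    simp only [] at e
    rw [h4 _ _ (k + 1) _ (by simp; omega) (by rw [List.length_cons, List.length_cons, f]; omega)] at e
    omega

theorem test_rel {Fl : ℕ → ℕ → Set Om} (hF : BF A fun a h _ => A ∈ Fl a h) (hZ : ZR A J l) (K : ℕ) :
    ∃ S, NPRel A S ∧ ∀ x y, S x y ↔ ∃ k, K ≤ k ∧ x.length = sc k ∧ y ∈ J (sc k) ∧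
      A ∈ Z (blk (l (sc k) (lev (fun k => Fl (sc k)) A k)) y) := by
  obtain ⟨G, h1, h2, h3⟩ := lev_fp hF
  obtain ⟨h0, R, h4, h5⟩ := hZ
  have hG : PF A 2 fun σ => G (σ 0) := PF.app h1 PF.v0
  have e : ∀ x y : L, ((un (sc K)).length ≤ x.length ∧ ((fst (G x)).length ≤ x.length ∧
      x.length ≤ (fst (G x)).length) ∧ R (G x) y) ↔ ∃ k, K ≤ k ∧ x.length = sc k ∧ y ∈ J (sc k) ∧
      A ∈ Z (blk (l (sc k) (lev (fun k => Fl (sc k)) A k)) y) := fun x y => by
    rw [un_length]
    constructor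
    · rintro ⟨a, b, c⟩
      obtain ⟨k, d⟩ := h3 x (le_antisymm b.1 b.2)
      exact ⟨k, sc_mono.le_iff_le.1 (d ▸ a), d, by rwa [h2 k x d, h5] at c⟩
    · rintro ⟨k, a, b, c⟩
      rw [h2 k x b, h5, fst_pr, un_length, b]
      exact ⟨sc_mono.monotone a, ⟨le_rfl, le_rfl⟩, c⟩
  refine ⟨fun x y => (un (sc K)).length ≤ x.length ∧ ((fst (G x)).length ≤ x.length ∧
    x.length ≤ (fst (G x)).length) ∧ R (G x) y, npRel_intro (((PF.const _).le PF.v0).and (((hG.fst.le PF.v0).and
    (PF.v0.le hG.fst)).and (h4.app hG PF.v1))) ((Pol.id.pow 4).add (Pol.const 1)) fun x y b => ?_, e⟩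
  obtain ⟨k, -, c, d, -⟩ := (e x y).1 b
  rw [h0 _ y d, c]

theorem scale_co {Fl : ℕ → ℕ → Set Om} (hF : BF A fun a h _ => A ∈ Fl a h) (K : ℕ) :
    InNP A {x | ¬ ∃ k, K ≤ k ∧ x.length = sc k} := by
  obtain ⟨G, h1, h2, h3⟩ := lev_fp hF
  have hG : PF A 2 fun σ => G (σ 0) := PF.app h1 PF.v0
  refine inNP_dec ((((PF.const (un (sc K))).le PF.v0).and ((hG.fst.le PF.v0).and
    (PF.v0.le hG.fst))).not.of_iff fun σ => not_congr ?_)
  rw [un_length]
  constructor
  · rintro ⟨a, b⟩
    obtain ⟨k, d⟩ := h3 _ (le_antisymm b.1 b.2)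
    exact ⟨k, sc_mono.le_iff_le.1 (d ▸ a), d⟩
  · rintro ⟨k, a, b⟩
    rw [h2 k _ b, fst_pr, un_length, b]
    exact ⟨sc_mono.monotone a, le_rfl, le_rfl⟩

end Pool.Agent.Lib.MP_2c6a5a_lc.RO
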