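import Pool.Agent.Lib.MP_2c6a5a_lc.RO.Prob

/-! Zero blocks and the two planting inequalities. -/

namespace Pool.Agent.Lib.MP_2c6a5a_lc.RO

open MeasureTheory Set
open scoped ENNReal

/-- the block of `l` strings that extend `y` -/
def blk (l : ℕ) (y : L) : Finset L := (Finset.range l).image fun i => y ++ List.replicate i true

variable {l m t : ℕ} {y y' s : L} {J : Finset L} {A : Om} {G X : Set Om}

theorem mem_blk : s ∈ blk l y ↔ ∃ i < l, y ++ List.replicate i true = s := by simp [blk]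

theorem card_blk : (blk l y).card = l := by
  rw [blk, Finset.card_image_of_injective, Finset.card_range]
  intro i j e
  simpa using congrArg List.length e

theorem blk_take (h : s ∈ blk l y) : s.take y.length = y := by
  obtain ⟨i, -, rfl⟩ := mem_blk.1 h
  simp

theorem blk_len (h : s ∈ blk l y) : y.length ≤ s.length ∧ s.length < y.length + l := by
  obtain ⟨i, hi, rfl⟩ := mem_blk.1 h
  simpa using hi

theorem blk_eq (e : y.length = y'.length) (h : s ∈ blk l y) (h' : s ∈ blk l y') : y = y' := by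
  rw [← blk_take h, e, blk_take h']

theorem mem_Z_blk : A ∈ Z (blk l y) ↔ ∀ i < l, A (y ++ List.replicate i true) = false := by
  simp [Z, blk]

/-- all strings of `J` have length `m` -/
def Len (m : ℕ) (J : Finset L) : Prop := ∀ y ∈ J, y.length = m

theorem Len.sub {J' : Finset L} (h : Len m J) (hs : J' ⊆ J) : Len m J' := fun y a => h y (hs a)

/-- some block of `J` is zero -/
def Has (l : ℕ) (J : Finset L) : Set Om := {A | ∃ y ∈ J, A ∈ Z (blk l y)}

/-- the union of the blocks -/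
def reg (l : ℕ) (J : Finset L) : Set L := {s | ∃ y ∈ J, s ∈ blk l y}

theorem dep_has : Dep (reg l J) (Has l J) := fun A B e ⟨y, a, b⟩ =>
  ⟨y, a, dep_Z _ A B (fun s c => e s ⟨y, a, c⟩) b⟩

theorem fd_has : FD (Has l J) :=
  ⟨J.biUnion (blk l), dep_has.mono fun s ⟨y, a, b⟩ => by simpa using ⟨y, a, b⟩⟩

theorem Dep.zr_iff {S : Finset L} (h : Dep (S : Set L)ᶜ G) : RO.zr S A ∈ G ↔ A ∈ G :=
  h.iff fun _ c => zr_out c A

theorem dep_has_out (hJ : Len m J) (hy : y.length = m) (hn : y ∉ J) :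
    Dep (blk l y : Set L)ᶜ (Has l J) :=
  dep_has.mono fun _ ⟨y', a, b⟩ c => hn (blk_eq ((hJ y' a).trans hy.symm) b c ▸ a)

theorem mu_none (hJ : Len m J) : mu (Has l J)ᶜ = (1 - 2⁻¹ ^ l) ^ J.card := by
  induction J using Finset.induction_on with
  | empty => simp [Has]
  | insert y J hy ih =>
    have e : (Has l (insert y J))ᶜ = (Z (blk l y))ᶜ ∩ (Has l J)ᶜ := by
      ext A; simp [Has]
    rw [e, indep (dep_Z _).compl (dep_has_out (hJ.sub (Finset.subset_insert _ _))
      (hJ y (by simp)) hy).compl (fd_Z _).compl fd_has.compl, ih (hJ.sub (Finset.subset_insert _ _)),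
      prob_compl_eq_one_sub (fd_Z _).meas, mu_Z, card_blk, Finset.card_insert_of_notMem hy, pow_succ']

/-- membership has certificates of size `t` -/
def Cert (t : ℕ) (X : Set Om) : Prop :=
  ∀ A ∈ X, ∃ S : Finset L, S.card ≤ t ∧ ∀ B : Om, (∀ s ∈ S, B s = A s) → B ∈ X

open Classical in
theorem card_meet (hJ : Len m J) (S : Finset L) :
    (J.filter fun y => ∃ s ∈ S, s ∈ blk l y).card ≤ S.card := by
  refine le_trans (Finset.card_le_card fun y a => ?_) (Finset.card_image_le (f := fun s : L => s.take m))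
  obtain ⟨a, s, b, c⟩ := Finset.mem_filter.1 a
  exact Finset.mem_image.2 ⟨s, b, hJ y a ▸ blk_take c⟩

open Classical in
theorem Cert.count (hX : Cert t X) (hJ : Len m J) (hA : A ∈ X) :
    (J.filter fun y => RO.zr (blk l y) A ∉ X).card ≤ t := by
  obtain ⟨S, h1, h2⟩ := hX A hA
  refine le_trans (Finset.card_le_card fun y a => ?_) ((card_meet (l := l) hJ S).trans h1)
  obtain ⟨a, b⟩ := Finset.mem_filter.1 a
  refine Finset.mem_filter.2 ⟨a, by_contra fun c => b (h2 _ fun s d => zr_out (fun e => c ⟨s, d, e⟩) A)⟩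

theorem plant_up (hJ : Len m J) (hX : Cert t X) (fX : FD X) (fG : FD G) (G' : L → Set Om)
    (h1 : ∀ y ∈ J, FD (G' y)) (h2 : ∀ y ∈ J, Dep (blk l y : Set L)ᶜ (G' y))
    (h3 : ∀ y ∈ J, G' y ⊆ G) :
    mu {A | A ∉ X ∧ ∃ y ∈ J, A ∈ Z (blk l y) ∧ A ∈ G' y} ≤ 2⁻¹ ^ l * (J.card * mu (G ∩ Xᶜ) + t) := by
  classical
  calc _ ≤ mu (⋃ y ∈ J, Z (blk l y) ∩ (G' y ∩ Xᶜ)) :=
        measure_mono (by rintro A ⟨a, y, b, c, d⟩; exact mem_biUnion b ⟨c, d, a⟩)
    _ ≤ ∑ y ∈ J, mu (Z (blk l y) ∩ (G' y ∩ Xᶜ)) := measure_biUnion_finset_le _ _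
    _ = 2⁻¹ ^ l * ∑ y ∈ J, mu (zr (blk l y) ⁻¹' (G' y ∩ Xᶜ)) := by
        rw [Finset.mul_sum]
        exact Finset.sum_congr rfl fun y a => by rw [plant _ ((h1 y a).inter fX.compl), card_blk]
    _ ≤ _ := by
        gcongr
        refine sum_le_of_count J _ (fun y a => ((h1 y a).inter fX.compl).zr _) (fG.inter fX.compl) t
          fun A a => ?_
        by_cases c : A ∈ X
        · refine le_trans (Finset.card_le_card fun y b => ?_) (hX.count (l := l) hJ c)
          obtain ⟨b, d⟩ := Finset.mem_filter.1 b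
          exact Finset.mem_filter.2 ⟨b, d.2⟩
        · rw [Finset.filter_eq_empty_iff.2 fun y b d => a ⟨h3 y b ((h2 y b).zr_iff.1 d.1), c⟩]
          simp

theorem sum_single (fG : FD G) :
    2⁻¹ ^ l * ∑ y ∈ J, mu (zr (blk l y) ⁻¹' (G ∩ (Has l (J.erase y))ᶜ)) ≤ mu (G ∩ Has l J) := by
  rw [Finset.mul_sum]
  calc _ = ∑ y ∈ J, mu (Z (blk l y) ∩ (G ∩ (Has l (J.erase y))ᶜ)) :=
        Finset.sum_congr rfl fun y a => by rw [plant _ (fG.inter fd_has.compl), card_blk]
    _ = mu (⋃ y ∈ J, Z (blk l y) ∩ (G ∩ (Has l (J.erase y))ᶜ)) :=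
        (measure_biUnion_finset (fun y a y' b n => disjoint_left.2 fun A c d =>
          d.2.2 ⟨y, Finset.mem_erase.2 ⟨n, a⟩, c.1⟩)
          fun y _ => ((fd_Z _).inter (fG.inter fd_has.compl)).meas).symm
    _ ≤ _ := measure_mono (iUnion₂_subset fun y a A b => by exact ⟨b.2.1, y, a, b.1⟩)

theorem plant_down (hJ : Len m J) (hX : Cert t X) (fX : FD X) (fG : FD G)
    (h2 : ∀ y ∈ J, Dep (blk l y : Set L)ᶜ G) :
    2⁻¹ ^ l * ((J.card - t : ℕ) * mu (G ∩ (Has l J)ᶜ ∩ X)) ≤ mu (G ∩ X) := by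
  classical
  refine le_trans ?_ ((sum_single (l := l) (J := J) (fG.inter fX)).trans (measure_mono inter_subset_left))
  gcongr
  refine le_sum_of_count J _ (fun y a => ((fG.inter fX).inter fd_has.compl).zr _)
    ((fG.inter fd_has.compl).inter fX) _ fun A a => ?_
  have h3 := hX.count (l := l) hJ a.2
  have h4 := Finset.card_filter_add_card_filter_not (s := J) fun y => zr (blk l y) A ∉ X
  refine le_trans (by omega : _ ≤ (J.filter fun y => ¬ zr (blk l y) A ∉ X).card)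
    (Finset.card_le_card fun y b => ?_)
  obtain ⟨b, d⟩ := Finset.mem_filter.1 b
  refine Finset.mem_filter.2 ⟨b, ⟨(h2 y b).zr_iff.2 a.1.1, not_not.1 d⟩, fun c => a.1.2 ?_⟩
  obtain ⟨y', e, f⟩ := (dep_has_out (hJ.sub (J.erase_subset y)) (hJ y b) (by simp)).zr_iff.1 c
  exact ⟨y', J.erase_subset y e, f⟩

end Pool.Agent.Lib.MP_2c6a5a_lc.RO
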