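import Pool.Agent.Lib.MP_2c6a5a_lc.RO.Blk

/-! The inequalities for disjoint pairs and the risk of the tests. -/

namespace Pool.Agent.Lib.MP_2c6a5a_lc.RO

open MeasureTheory Set
open scoped ENNReal

/-- strings of length `n` -/
def strs (n : ℕ) : Finset L :=
  (Finset.univ : Finset (List.Vector Bool n)).image List.Vector.toList

/-- strings of length `n + 1` with first symbol `b` -/
def side (b : Bool) (n : ℕ) : Finset L := (strs n).map ⟨List.cons b, List.cons_injective⟩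

variable {n h l t k a : ℕ} {y : L} {b : Bool} {P : Set Om}

theorem mem_strs : y ∈ strs n ↔ y.length = n := by
  simp only [strs, Finset.mem_image, Finset.mem_univ, true_and]
  exact ⟨fun ⟨v, e⟩ => e ▸ v.2, fun e => ⟨⟨y, e⟩, rfl⟩⟩

theorem card_strs : (strs n).card = 2 ^ n := by
  rw [strs, Finset.card_image_of_injective _ List.Vector.toList_injective]
  simp

theorem card_side : (side b n).card = 2 ^ n := by simp [side, card_strs]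

theorem mem_side : y ∈ side b n ↔ y.length = n + 1 ∧ y.take 1 = [b] := by
  simp only [side, Finset.mem_map, mem_strs, Function.Embedding.coeFn_mk]
  constructor
  · rintro ⟨v, e, rfl⟩; simp [e]
  · rcases y with _ | ⟨c, v⟩
    · simp
    · simp only [List.length_cons, Nat.add_right_cancel_iff, List.take_succ_cons, List.take_zero,
        List.cons.injEq, and_true]
      exact fun ⟨e, f⟩ => ⟨v, e, f.symm, rfl⟩

theorem len_side : Len (n + 1) (side b n) := fun _ c => (mem_side.1 c).1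

theorem len_strs : Len n (strs n) := fun _ c => mem_strs.1 c

theorem side_not (c : y ∈ side b n) : y ∉ side (!b) n := fun d => by
  have := (mem_side.1 c).2.symm.trans (mem_side.1 d).2
  simp at this

theorem has_strs : Has l (strs (n + 1)) = Has l (side false n) ∪ Has l (side true n) := by
  ext A
  constructor
  · rintro ⟨y, c, d⟩
    rcases y with _ | ⟨_ | _, v⟩
    · simp [mem_strs] at c
    · exact Or.inl ⟨_, mem_side.2 ⟨mem_strs.1 c, rfl⟩, d⟩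
    · exact Or.inr ⟨_, mem_side.2 ⟨mem_strs.1 c, rfl⟩, d⟩
  · rintro (⟨y, c, d⟩ | ⟨y, c, d⟩) <;> exact ⟨y, mem_strs.2 (len_side y c), d⟩

theorem Dep.out (hP : Dep (lo a) P) (hy : a ≤ y.length) : Dep (blk l y : Set L)ᶜ P :=
  hP.mono fun _ c d => absurd (hy.trans (blk_len d).1) (not_le.2 c)

theorem dep_has_lo {m : ℕ} {J : Finset L} (hJ : Len m J) (ha : m + l ≤ a) : Dep (lo a) (Has l J) :=
  dep_has.mono fun _ ⟨y, c, d⟩ => lt_of_lt_of_le (hJ y c ▸ (blk_len d).2) ha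

theorem dep_has_hi {m : ℕ} {J : Finset L} (hJ : Len m J) (ha : a ≤ m) : Dep (lo a)ᶜ (Has l J) :=
  dep_has.mono fun _ ⟨y, c, d⟩ => not_lt.2 (ha.trans (hJ y c ▸ (blk_len d).1))

theorem half_pow (n : ℕ) : (2⁻¹ : ℝ≥0∞) ^ n * 2 ^ n = 1 := by
  rw [← mul_pow, ENNReal.inv_mul_cancel (by simp) (by simp), one_pow]

theorem small {u : ℕ} (hn : u * 2 ^ k ≤ 2 ^ n) : (u : ℝ≥0∞) * 2⁻¹ ^ n ≤ 2⁻¹ ^ k := by
  have h1 : (u : ℝ≥0∞) * 2 ^ k ≤ 2 ^ n := by exact_mod_cast hn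
  calc (u : ℝ≥0∞) * 2⁻¹ ^ n = (u * 2 ^ k) * (2⁻¹ ^ n * 2⁻¹ ^ k) := by
        rw [show (u : ℝ≥0∞) * 2 ^ k * (2⁻¹ ^ n * 2⁻¹ ^ k) = u * 2⁻¹ ^ n * (2⁻¹ ^ k * 2 ^ k) by ring,
          half_pow, mul_one]
    _ ≤ 2 ^ n * (2⁻¹ ^ n * 2⁻¹ ^ k) := by gcongr
    _ = _ := by rw [← mul_assoc, mul_comm (2 ^ n), half_pow, one_mul]

theorem ineq_np {X : Bool → Set Om} (hP : Dep (lo a) P) (ha : a ≤ n + 1) (hX : ∀ b, Cert t (X b))
    (fX : ∀ b, FD (X b)) (hn : (2 * t + 1) * 2 ^ k ≤ 2 ^ n) :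
    mu (P ∩ {A | ∀ b, A ∈ Has (n + h) (side b n)} ∩ {A | ∀ b, A ∈ X b}ᶜ) ≤ 2⁻¹ ^ h *
      ((3 : ℕ) * mu (P ∩ {A | ∃ b, A ∈ Has (n + h) (side b n) ∧ A ∉ X b}) + 2⁻¹ ^ k) := by
  set F := P ∩ {A | ∃ b, A ∈ Has (n + h) (side b n) ∧ A ∉ X b}
  have h1 : ∀ b, mu {A | A ∉ X b ∧ ∃ y ∈ side (!b) n, A ∈ Z (blk (n + h) y) ∧
      A ∈ P ∩ Has (n + h) (side b n)} ≤ 2⁻¹ ^ h * (mu F + t * 2⁻¹ ^ n) := fun b => by
    refine (plant_up len_side (hX b) (fX b) (hP.fd.inter fd_has) _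
      (fun _ _ => hP.fd.inter fd_has) (fun y c => (hP.out (len_side y c ▸ ha)).inter
        (dep_has_out len_side (len_side y c) (by simpa using side_not c))) fun _ _ => Subset.rfl).trans ?_
    rw [card_side, pow_add, mul_comm (2⁻¹ ^ n), mul_assoc, mul_add, ← mul_assoc, Nat.cast_pow,
      Nat.cast_ofNat, half_pow, one_mul, mul_comm (2⁻¹ ^ n)]
    gcongr
    exact fun A c => ⟨c.1.1, b, c.1.2, c.2⟩
  refine le_trans (measure_mono ?_) ((measure_union_le _ _).trans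
    ((add_le_add (h1 false) (h1 true)).trans ?_))
  · rintro A ⟨⟨c, d⟩, e⟩
    obtain ⟨b, e⟩ := not_forall.1 e
    obtain ⟨y, f, g⟩ := d (!b)
    cases b
    · exact Or.inl ⟨e, y, f, g, c, d _⟩
    · exact Or.inr ⟨e, y, f, g, c, d _⟩
  · rw [← mul_add]
    refine mul_le_mul_right (le_trans ?_ (add_le_add le_rfl (small hn))) _
    push_cast
    calc _ = 2 * mu F + 2 * t * 2⁻¹ ^ n := by ring
      _ ≤ _ := by gcongr; exacts [by norm_num, le_self_add]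

theorem ineq_co {X : Bool → Set Om} (hP : Dep (lo a) P) (ha : a ≤ n + 1) (hX : ∀ b, Cert t (X b))
    (fX : ∀ b, FD (X b)) (hn : (2 * t + 1) * 2 ^ k ≤ 2 ^ n) (hh : h ≤ n) :
    mu (P ∩ {A | ∀ b, A ∉ Has (n - h) (side b n)} ∩ {A | ∀ b, A ∉ X b}ᶜ) ≤ 2⁻¹ ^ h *
      ((4 : ℕ) * mu (P ∩ {A | ∃ b, A ∉ Has (n - h) (side b n) ∧ A ∈ X b}) + 2⁻¹ ^ k) := by
  set F := P ∩ {A | ∃ b, A ∉ Has (n - h) (side b n) ∧ A ∈ X b}
  have h0 : 2 ^ n ≤ 2 * (2 ^ n - t) := by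
    have : 1 ≤ 2 ^ k := Nat.one_le_two_pow
    have : 2 * t + 1 ≤ 2 ^ n := le_trans (Nat.le_mul_of_pos_right _ this) hn
    omega
  have h1 : ∀ b, mu (P ∩ (Has (n - h) (side b n))ᶜ ∩ (Has (n - h) (side (!b) n))ᶜ ∩ X b) ≤
      2⁻¹ ^ h * (2 * mu F) := fun b => by
    have h2 := plant_down (l := n - h) (len_side (b := !b)) (hX b) (fX b) (hP.fd.inter fd_has.compl)
      fun y c => (hP.out (len_side y c ▸ ha)).inter
        (dep_has_out (len_side (b := b)) (len_side y c) (by simpa using side_not c)).compl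
    rw [card_side] at h2
    have h3 : (2 : ℝ≥0∞) ^ n ≤ 2 * ((2 ^ n - t : ℕ) : ℝ≥0∞) := by exact_mod_cast h0
    have h4 : (2⁻¹ : ℝ≥0∞) ^ h * 2⁻¹ ^ (n - h) * 2 ^ n = 1 := by
      rw [← pow_add, Nat.add_sub_cancel' hh, half_pow]
    set w := mu (P ∩ (Has (n - h) (side b n))ᶜ ∩ (Has (n - h) (side (!b) n))ᶜ ∩ X b)
    calc w = 2⁻¹ ^ h * 2⁻¹ ^ (n - h) * 2 ^ n * w := by rw [h4, one_mul]
      _ ≤ 2⁻¹ ^ h * 2⁻¹ ^ (n - h) * (2 * ((2 ^ n - t : ℕ) : ℝ≥0∞)) * w := by gcongr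
      _ = 2⁻¹ ^ h * (2 * (2⁻¹ ^ (n - h) * (((2 ^ n - t : ℕ) : ℝ≥0∞) * w))) := by ring
      _ ≤ _ := by
        gcongr
        exact h2.trans (measure_mono fun A c => ⟨c.1.1, b, c.1.2, c.2⟩)
  refine le_trans (measure_mono ?_) ((measure_union_le _ _).trans
    ((add_le_add (h1 false) (h1 true)).trans ?_))
  · rintro A ⟨⟨c, d⟩, e⟩
    obtain ⟨b, e⟩ := not_forall.1 e
    cases b
    · exact Or.inl ⟨⟨⟨c, d _⟩, d _⟩, not_not.1 e⟩
    · exact Or.inr ⟨⟨⟨c, d _⟩, d _⟩, not_not.1 e⟩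
  · rw [← mul_add]
    refine mul_le_mul_right (le_add_right (le_of_eq ?_)) _
    push_cast
    ring

theorem real_none {m : ℕ} {J : Finset L} (hJ : Len m J) :
    mu.real (Has l J)ᶜ = (1 - 2⁻¹ ^ l) ^ J.card := by
  rw [Measure.real, mu_none hJ, ENNReal.toReal_pow, ENNReal.toReal_sub_of_le
    (pow_le_one₀ zero_le (by simp)) (by simp)]
  simp

theorem risk_np (h : ℕ) : ∃ r < 1, ∀ n, mu {A | ∀ b, A ∈ Has (n + h) (side b n)}ᶜ ≤ r := by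
  have hq : (0 : ℝ) < 2⁻¹ ^ h := by positivity
  refine ⟨ENNReal.ofReal (1 - (1 - (1 + 2⁻¹ ^ h)⁻¹) ^ 2), ENNReal.ofReal_lt_one.2 ?_, fun n => ?_⟩
  · have : (1 + 2⁻¹ ^ h : ℝ)⁻¹ < 1 := inv_lt_one_of_one_lt₀ (by linarith)
    nlinarith [pow_pos (sub_pos.2 this) 2]
  have e : {A | ∀ b, A ∈ Has (n + h) (side b n)}ᶜ =
      (Has (n + h) (side false n))ᶜ ∪ (Has (n + h) (side true n))ᶜ := by
    ext A; simp only [mem_compl_iff, mem_ofPred_eq, Bool.forall_bool, mem_union]; tauto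
  have h1 := measureReal_union_add_inter (μ := mu) (s := (Has (n + h) (side false n))ᶜ)
    (fd_has (l := n + h) (J := side true n)).compl.meas
  rw [← compl_union, ← has_strs, real_none len_side, real_none len_side, real_none len_strs,
    card_side, card_side, card_strs, pow_succ, pow_mul] at h1
  rw [e, ← ofReal_measureReal]
  refine ENNReal.ofReal_le_ofReal ?_
  set q : ℝ := (1 - 2⁻¹ ^ (n + h)) ^ 2 ^ n
  have p1 : (2⁻¹ : ℝ) ^ (n + h) ≤ 1 := pow_le_one₀ (by norm_num) (by norm_num)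
  have p0 : (0 : ℝ) ≤ 2⁻¹ ^ (n + h) := by positivity
  have h2 : q * (1 + 2⁻¹ ^ h) ≤ 1 := by
    have h3 := one_add_mul_le_pow (show (-2 : ℝ) ≤ 2⁻¹ ^ (n + h) by linarith) (2 ^ n)
    have h4 : ((2 ^ n : ℕ) : ℝ) * 2⁻¹ ^ (n + h) = 2⁻¹ ^ h := by
      push_cast; rw [pow_add, ← mul_assoc, ← mul_pow]; simp
    rw [h4] at h3
    calc _ ≤ q * (1 + 2⁻¹ ^ (n + h)) ^ 2 ^ n := by gcongr
      _ = ((1 - 2⁻¹ ^ (n + h)) * (1 + 2⁻¹ ^ (n + h))) ^ 2 ^ n := by rw [mul_pow]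
      _ ≤ 1 := pow_le_one₀ (by nlinarith) (by nlinarith)
  have h5 : q ≤ (1 + 2⁻¹ ^ h)⁻¹ := by
    rw [← one_div, le_div_iff₀ (by linarith)]; exact h2
  have h6 : (1 + 2⁻¹ ^ h : ℝ)⁻¹ ≤ 1 := inv_le_one_of_one_le₀ (by linarith)
  nlinarith

theorem risk_co (h : ℕ) :
    ∃ r < 1, ∀ n, h < n → mu {A | ∀ b, A ∉ Has (n - h) (side b n)}ᶜ ≤ r := by
  refine ⟨ENNReal.ofReal (1 - 2⁻¹ ^ 2 ^ (h + 2)), ENNReal.ofReal_lt_one.2 ?_, fun n hn => ?_⟩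
  · have : (0 : ℝ) < 2⁻¹ ^ 2 ^ (h + 2) := by positivity
    linarith
  have e : {A | ∀ b, A ∉ Has (n - h) (side b n)} = (Has (n - h) (strs (n + 1)))ᶜ := by
    ext A; simp [has_strs]
  rw [e, ← ofReal_measureReal, probReal_compl_eq_one_sub fd_has.compl.meas, real_none len_strs,
    card_strs]
  refine ENNReal.ofReal_le_ofReal (sub_le_sub_left ?_ _)
  obtain ⟨d, rfl⟩ : ∃ d, n = h + (d + 1) := ⟨n - h - 1, by omega⟩
  rw [Nat.add_sub_cancel_left, show 2 ^ (h + (d + 1) + 1) = 2 ^ d * 2 ^ (h + 2) by ring, pow_mul]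
  have p1 : (2⁻¹ : ℝ) ^ (d + 1) ≤ 1 := pow_le_one₀ (by norm_num) (by norm_num)
  have h3 := one_add_mul_le_pow (show (-2 : ℝ) ≤ -2⁻¹ ^ (d + 1) by linarith) (2 ^ d)
  have h4 : ((2 ^ d : ℕ) : ℝ) * -2⁻¹ ^ (d + 1) = -2⁻¹ := by
    push_cast; rw [pow_succ, mul_neg, ← mul_assoc, ← mul_pow]; simp
  rw [h4, ← sub_eq_add_neg, ← sub_eq_add_neg] at h3
  exact pow_le_pow_left₀ (by norm_num) (le_trans (by norm_num) h3) _

end Pool.Agent.Lib.MP_2c6a5a_lc.RO
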