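import Pool.Agent.Lib.MP_2c6a5a_lc.RO.Up
import Pool.Agent.Lib.MP_2c6a5a_lc.U.NP

/-! The universal function as a decision tree; the enumeration of strings; the scales. -/

namespace Pool.Agent.Lib.MP_2c6a5a_lc.RO

open Pool.Agent.Lib.MP_8a52c3_lc.Orc Pool.Agent.Lib.MP_2c6a5a_lc.U Function Filter

/-- `F` is computed by a decision tree of depth `t` that asks strings shorter than `m` -/
def DT (t m : ℕ) (F : Om → L) : Prop :=
  ∃ Q : Om → Finset L, ∀ A, (Q A).card ≤ t ∧ (∀ s ∈ Q A, s.length < m) ∧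
    ∀ B : Om, (∀ s ∈ Q A, B s = A s) → F B = F A ∧ Q B = Q A

variable {t t' m : ℕ} {F : Om → L}

theorem DT.const (x : L) : DT t m fun _ => x := ⟨fun _ => ∅, fun _ => by simp⟩

theorem DT.comp {G : L → Om → L} (hF : DT t m F) (hG : ∀ x, DT t' m (G x)) :
    DT (t + t') m fun A => G (F A) A := by
  obtain ⟨Q, H⟩ := hF
  choose Q' H' using hG
  refine ⟨fun A => Q A ∪ Q' (F A) A, fun A => ⟨(Finset.card_union_le _ _).trans
    (add_le_add (H A).1 (H' _ A).1), fun s c => (Finset.mem_union.1 c).elim ((H A).2.1 s)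
      ((H' _ A).2.1 s), fun B e => ?_⟩⟩
  obtain ⟨e1, e2⟩ := (H A).2.2 B fun s c => e s (by simp [c])
  obtain ⟨e3, e4⟩ := (H' (F A) A).2.2 B fun s c => e s (by simp [c])
  simp only [e1, e2, e3, e4, and_self]

theorem DT.map (hF : DT t m F) (g : L → L) : DT t m fun A => g (F A) :=
  hF.comp (t' := 0) (G := fun x _ => g x) fun _ => DT.const _

theorem dt_us {p : L} (hp : (snd p).length < m) (a : L) : DT 1 m fun A => us A p a := by
  refine ⟨fun _ => {(U.get (fst (snd (nth (fst a) (fst p)))) (snd a)).take (snd p).length},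
    fun A => ⟨by simp, fun s c => ?_, fun B e => ⟨?_, rfl⟩⟩⟩
  · rw [Finset.mem_singleton.1 c, List.length_take]; omega
  · simp only [us, ex, e _ (Finset.mem_singleton_self _)]

theorem dt_iter {p : L} (hp : (snd p).length < m) (j : ℕ) (a : L) :
    DT j m fun A => (us A p)^[j] a := by
  induction j generalizing a with
  | zero => exact DT.const a
  | succ j ih =>
    have := (dt_us hp a).comp ih
    rw [add_comm] at this
    exact this

theorem dt_univ (c : L) {x : L} (h : x.length + t < m) : DT t m fun A => univ A (pr c (un t)) x := by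
  simp only [univ, fst_pr, snd_pr, un_length]
  exact (dt_iter (by simpa using h) t _).map fun z => U.get [] (snd z)

/-- the successor in the enumeration of strings -/
def nxt : L → L
  | [] => [false]
  | false :: w => true :: w
  | true :: w => false :: nxt w

theorem nxt_len (w : L) : (nxt w).length ≤ w.length + 1 := by
  induction w with
  | nil => simp [nxt]
  | cons b w ih => cases b <;> simp [nxt, ih]

theorem exists_index (y : L) : ∃ j, j + 2 ≤ 2 ^ (y.length + 1) ∧ nxt^[j] [] = y := by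
  have h : ∀ j, nxt^[2 * j + 1] [] = false :: nxt^[j] [] := by
    intro j
    induction j with
    | zero => rfl
    | succ j ih =>
      rw [show 2 * (j + 1) + 1 = 2 * j + 1 + 1 + 1 by ring, iterate_succ_apply', iterate_succ_apply',
        ih, iterate_succ_apply']
      rfl
  induction y with
  | nil => exact ⟨0, le_rfl, rfl⟩
  | cons b y ih =>
    obtain ⟨j, h1, rfl⟩ := ih
    rw [List.length_cons, pow_succ]
    cases b
    · exact ⟨2 * j + 1, by omega, h j⟩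
    · exact ⟨2 * j + 1 + 1, by omega, by rw [iterate_succ_apply', h]; rfl⟩

/-- the code with number `h` -/
def code (h : ℕ) : L := fst (nxt^[h] [])

theorem exists_level (c : L) (H : ℕ) : ∃ h, H ≤ h ∧ code h = c := by
  obtain ⟨j, -, e⟩ := exists_index (pr c (un H))
  refine ⟨j, ?_, by rw [code, e, fst_pr]⟩
  have : ∀ i, (nxt^[i] []).length ≤ i := fun i => by
    induction i with
    | zero => rfl
    | succ i ih => rw [iterate_succ_apply']; exact (nxt_len _).trans (by omega)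
  have := this j
  rw [e, pr_length, un_length] at this
  omega

/-- the next scale -/
def nx (a : ℕ) : ℕ := 2 ^ (2 ^ a + 2 ^ a ^ 2 + 2 ^ a ^ 3 + a ^ 4 + a + 2)

/-- the scales -/
def sc : ℕ → ℕ
  | 0 => 0
  | k + 1 => nx (sc k)

theorem nx_ge (a : ℕ) : 2 * (2 ^ a + 2 ^ a ^ 2 + 2 ^ a ^ 3 + a ^ 4 + a + 2) ≤ nx a ∧
    0 < 2 ^ a ∧ 0 < 2 ^ a ^ 2 ∧ 0 < 2 ^ a ^ 3 := by
  refine ⟨?_, Nat.two_pow_pos _, Nat.two_pow_pos _, Nat.two_pow_pos _⟩
  rw [nx, show 2 ^ a + 2 ^ a ^ 2 + 2 ^ a ^ 3 + a ^ 4 + a + 2 =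
    (2 ^ a + 2 ^ a ^ 2 + 2 ^ a ^ 3 + a ^ 4 + a + 1) + 1 from rfl, pow_succ, mul_comm]
  exact Nat.mul_le_mul_right 2 Nat.lt_two_pow_self

theorem sc_mono : StrictMono sc :=
  strictMono_nat_of_lt_succ fun k => by have := nx_ge (sc k); rw [sc]; omega

theorem le_sc (k : ℕ) : k ≤ sc k := sc_mono.le_apply

theorem sc_top : Tendsto sc atTop atTop := sc_mono.tendsto_atTop

/-- the value of the reduction with number `h` at scale `a` -/
def zz (A : Om) (a h : ℕ) : L := (univ A (pr (code h) (un (2 ^ a))) (un a)).take (2 ^ a)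

/-- the verifier with code `c` accepts the witness `w` for that value -/
def VV (c : L) (a h : ℕ) (w : L) : Set Om :=
  {A | w.length ≤ 2 ^ a ^ 2 ∧ univ A (pr c (un (2 ^ a ^ 3))) (pr (zz A a h) w) = [true]}

theorem dt_vv (c : L) (a h : ℕ) {w : L} (hw : w.length ≤ 2 ^ a ^ 2) :
    DT (2 ^ a + 2 ^ a ^ 3) (nx a) fun A => univ A (pr c (un (2 ^ a ^ 3))) (pr (zz A a h) w) := by
  have := nx_ge a
  exact (dt_univ (code h) (x := un a) (by simp; omega)).comp
    (G := fun z A => univ A (pr c (un (2 ^ a ^ 3))) (pr (z.take (2 ^ a)) w))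
    fun z => dt_univ c (by rw [pr_length, List.length_take]; omega)

theorem tree_vv (c : L) (a h : ℕ) : Tree (2 ^ a + 2 ^ a ^ 3) (VV c a h) := by
  have : ∀ w, ∃ Q : Om → Finset L, ∀ A, (Q A).card ≤ 2 ^ a + 2 ^ a ^ 3 ∧
      ∀ B : Om, (∀ s ∈ Q A, B s = A s) → (A ∈ VV c a h w → B ∈ VV c a h w) ∧ Q B = Q A := by
    intro w
    by_cases hw : w.length ≤ 2 ^ a ^ 2
    · obtain ⟨Q, H⟩ := dt_vv c a h hw
      exact ⟨Q, fun A => ⟨(H A).1, fun B e => ⟨fun b => ⟨hw, ((H A).2.2 B e).1.trans b.2⟩,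
        ((H A).2.2 B e).2⟩⟩⟩
    · exact ⟨fun _ => ∅, fun A => ⟨by simp, fun B _ => ⟨fun b => (hw b.1).elim, rfl⟩⟩⟩
  choose Q H using this
  exact ⟨Q, H⟩

theorem dep_vv (c : L) (a h : ℕ) (w : L) : Dep (lo (nx a)) (VV c a h w) := fun A B e b =>
  let ⟨_, H⟩ := dt_vv c a h b.1
  ⟨b.1, ((H A).2.2 B fun s d => (e s ((H A).2.1 s d)).symm).1.trans b.2⟩

theorem dep_acc (c : L) (a h : ℕ) : Dep (lo (nx a)) (Acc (VV c a h)) :=
  fun A B e ⟨w, b⟩ => ⟨w, dep_vv c a h w A B e b⟩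

theorem dep_amb (c : L) (a h : ℕ) : Dep (lo (nx a)) (Amb (VV c a h)) :=
  fun A B e ⟨w, w', d, b, b'⟩ => ⟨w, w', d, dep_vv c a h w A B e b, dep_vv c a h w' A B e b'⟩

theorem num1 {a k : ℕ} (ha : 2 ≤ a) (hk : k ≤ a) :
    (2 * (2 ^ a + 2 ^ a ^ 3) + 1) * 2 ^ k ≤ 2 ^ a ^ 4 := by
  have h1 : a + 3 ≤ a ^ 3 := by nlinarith [Nat.mul_le_mul ha ha]
  have h2 : 2 ^ a ≤ 2 ^ a ^ 3 := Nat.pow_le_pow_right (by omega) (by omega)
  have h3 : 1 ≤ 2 ^ a := Nat.one_le_two_pow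
  calc _ ≤ (2 ^ a ^ 3 * 2 ^ 3) * 2 ^ a :=
        Nat.mul_le_mul (by omega) (Nat.pow_le_pow_right (by omega) hk)
    _ = 2 ^ (a ^ 3 + (a + 3)) := by ring
    _ ≤ _ := Nat.pow_le_pow_right (by omega) (by nlinarith)

theorem vv_iff {A : Om} {S : L → L → Prop} (hS : NPRel A S) :
    ∃ c, ∀ᶠ a in atTop, ∀ h w, A ∈ VV c a h w ↔ S (zz A a h) w := by
  obtain ⟨h1, k, hk⟩ := npRel_elim hS
  obtain ⟨g, hg, e⟩ := h1.app (PF.v0 (n := 0)).fst PF.v0.snd
  have h2 : FP1 A fun z => g fun _ => z := PF.fp1 (hg.of_eq fun σ => hg.1 _ _ fun i hi => by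
    obtain rfl : i = 0 := by omega
    rfl)
  obtain ⟨c, j, H⟩ := exists_code h2
  refine ⟨c, ?_⟩
  filter_upwards [eventually_ge_atTop (4 * j + 3 * k + 1)] with a ha h w
  have h3 : (zz A a h).length ≤ 2 ^ a := List.length_take_le _ _
  have h4 : 1 ≤ 2 ^ a := Nat.one_le_two_pow
  have h5 : 2 ^ a ≤ 2 ^ a ^ 2 := Nat.pow_le_pow_right (by omega) (by nlinarith)
  have h6 : w.length ≤ 2 ^ a ^ 2 → (univ A (pr c (un (2 ^ a ^ 3))) (pr (zz A a h) w) = [true] ↔
      S (zz A a h) w) := fun hw => by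
    rw [H, ← e]
    · simp
    · rw [pr_length, un_length]
      calc _ ≤ (2 ^ a ^ 2 * 2 ^ 3) ^ j := Nat.pow_le_pow_left (by omega) j
        _ = 2 ^ ((a ^ 2 + 3) * j) := by rw [← pow_add, ← pow_mul]
        _ ≤ _ := Nat.pow_le_pow_right (by omega) (by
          have : 1 ≤ a ^ 2 := Nat.one_le_pow _ _ (by omega)
          nlinarith)
  refine ⟨fun b => (h6 b.1).1 b.2, fun b => ?_⟩
  have hw : w.length ≤ 2 ^ a ^ 2 := (hk _ _ b).trans (calc
    _ ≤ (2 ^ a * 2 ^ 2) ^ k := Nat.pow_le_pow_left (by omega) k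
    _ = 2 ^ ((a + 2) * k) := by rw [← pow_add, ← pow_mul]
    _ ≤ _ := Nat.pow_le_pow_right (by omega) (by nlinarith))
  exact ⟨hw, (h6 hw).2 b⟩

theorem pol_le (e : ℕ) : ∀ᶠ a : ℕ in atTop, (a + 2) ^ e ≤ 2 ^ a := by
  have h := ((tendsto_pow_const_div_const_pow_of_one_lt e (r := 2) one_lt_two).comp
    (tendsto_add_atTop_nat 2)).eventually (gt_mem_nhds (show (0 : ℝ) < 1 / 4 by norm_num))
  filter_upwards [h] with a ha
  simp only [comp] at ha
  rw [div_lt_iff₀ (by positivity), pow_add] at ha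
  have : (((a + 2) ^ e : ℕ) : ℝ) ≤ (2 ^ a : ℕ) := by push_cast at ha ⊢; linarith
  exact_mod_cast this

theorem zz_eq {A : Om} {f : L → L} (hf : FP1 A f) :
    ∃ c, ∀ᶠ a in atTop, ∀ h, code h = c → zz A a h = f (un a) := by
  obtain ⟨c, j, H⟩ := exists_code hf
  obtain ⟨k, hk⟩ := fp1_len hf
  refine ⟨c, ?_⟩
  filter_upwards [pol_le j, pol_le k] with a h1 h2 h e
  rw [zz, e, H _ _ (by simpa using h1), List.take_of_length_le ((hk _).trans (by simpa using h2))]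

end Pool.Agent.Lib.MP_2c6a5a_lc.RO
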