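import Pool.Agent.Lib.MP_2c6a5a_lc.RO.Mach
import Pool.Agent.Lib.MP_2c6a5a_lc.U.Conv

/-! Relative to a random oracle three promise classes have no complete member. -/

namespace Pool.Agent.Lib.MP_2c6a5a_lc.RO

open Pool.Agent.Lib.MP_8a52c3_lc.Orc Pool.Agent.Lib.MP_2c6a5a_lc.U Filter MeasureTheory

theorem room {k h : ℕ} (hh : h ≤ k) : sc k ^ 4 + 1 + (sc k ^ 4 + (h + 2)) ≤ sc (k + 1) := by
  have := nx_ge (sc k)
  have := le_sc k
  rw [sc]
  omega

theorem low (a : ℕ) : a ≤ a ^ 4 + 1 := (Nat.le_self_pow (by omega) a).trans (Nat.le_succ _)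

theorem codes {A : Om} {D : Bool → Set L} (hD : ∀ b, InNP A (D b)) : ∃ c : Bool → L,
    ∀ᶠ k in atTop, ∀ b h, A ∈ Acc (VV (c b) (sc k) h) ↔ zz A (sc k) h ∈ D b := by
  choose S hS e using hD
  choose c H using fun b => vv_iff (hS b)
  refine ⟨c, sc_top.eventually (p := fun a => ∀ b h, A ∈ Acc (VV (c b) a h) ↔ zz A a h ∈ D b) ?_⟩
  refine eventually_all.2 fun b => (H b).mono fun a x h => ?_
  rw [e]
  exact exists_congr (x h)

theorem defeat {A : Om} {Fl : ℕ → ℕ → Set Om} {P : ℕ → Prop} (hP : ∀ᶠ k in atTop, P k)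
    (H : ∀ h, ∃ k, h ≤ k ∧ lev Fl A k = h ∧ A ∈ Fl k h) {f : L → L} (hf : FP1 A f) :
    ∃ k, P k ∧ A ∈ Fl k (lev Fl A k) ∧ zz A (sc k) (lev Fl A k) = f (un (sc k)) := by
  obtain ⟨c, hc⟩ := zz_eq hf
  obtain ⟨K, hK⟩ := eventually_atTop.1 (hP.and (sc_top.eventually hc))
  obtain ⟨h, h1, h2⟩ := exists_level c K
  obtain ⟨k, h3, rfl, h4⟩ := H h
  exact ⟨k, (hK k (h1.trans h3)).1, h4, (hK k (h1.trans h3)).2 _ h2⟩

theorem ae_np : ∀ᵐ A ∂mu, Cl.DisjNP A := by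
  let Hs : ℕ → ℕ → Bool → Set Om := fun a h b => Has (a ^ 4 + h) (side b (a ^ 4))
  let Fl : (Bool → L) → ℕ → ℕ → Set Om := fun c a h =>
    {A | ∃ b, A ∈ Hs a h b ∧ A ∉ Acc (VV (c b) a h)}
  have d1 : ∀ k h b, h ≤ k → Dep (lo (sc (k + 1))) (Hs (sc k) h b) := fun k h b l =>
    dep_has_lo len_side (by have := room l; omega)
  have H := fun c => bc_main (Fl := fun k => Fl c (sc k))
    (tb := fun k h => {A | ∀ b, A ∈ Hs (sc k) h b})
    (TB := fun k h => {A | ∀ b, A ∈ Acc (VV (c b) (sc k) h)}) sc_mono.monotone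
    (fun k h l A B e ⟨b, x, y⟩ => ⟨b, d1 k h b l A B e x, (dep_acc _ _ _).compl A B e y⟩)
    (fun k h l A B e x b => d1 k h b l A B e (x b))
    (fun k h _ A B e x b => dep_has_hi len_side (low _) A B e (x b))
    (fun h => let ⟨r, hr, H⟩ := risk_np h; ⟨r, hr, Eventually.of_forall fun k => H _⟩) 3
    ((sc_top.eventually_ge_atTop 2).mono fun k x h _ P hP => ineq_np hP (low _)
      (fun b => (tree_vv _ _ _).acc) (fun b => (dep_acc _ _ _).fd) (num1 x (le_sc k)))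
  filter_upwards [ae_all_iff.2 H] with A H
  rintro ⟨C₀, C₁, h0, h1, hd, hC⟩
  obtain ⟨c, hc⟩ := codes (D := fun b => cond b C₁ C₀) fun b => by cases b <;> assumption
  obtain ⟨e1, e2⟩ := H c (hc.mono fun k x y => Set.disjoint_left.1 hd
    ((x false _).1 (y false)) ((x true _).1 (y true)))
  obtain ⟨K, hK⟩ := eventually_atTop.1 e1
  have hF : BF A fun a h _ => A ∈ Fl c a h := (((zr_np false).bf.and (bf_acc (c false)).not).or
    ((zr_np true).bf.and (bf_acc (c true)).not)).of_iff fun _ _ _ => by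
      simp only [Fl, Hs, Set.mem_ofPred_eq, Bool.exists_bool]
  choose S hS e using fun b => test_rel hF (zr_np b) K
  obtain ⟨f, hf, r⟩ := hC _ _ (inNP_ex (hS false)) (inNP_ex (hS true))
    (Set.disjoint_left.2 fun x ⟨y, a⟩ ⟨y', a'⟩ => by
      obtain ⟨k, a1, a2, a3⟩ := (e _ _ _).1 a
      obtain ⟨k', -, a4, a5⟩ := (e _ _ _).1 a'
      obtain rfl : k = k' := sc_mono.injective (a2.symm.trans a4)
      exact hK k a1 fun b => by cases b; exacts [⟨y, a3⟩, ⟨y', a5⟩])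
  obtain ⟨k, ⟨x, l⟩, ⟨b, ⟨y, m⟩, z⟩, w⟩ := defeat (hc.and (eventually_ge_atTop K)) e2 hf
  refine z ((x b _).2 ?_)
  have := (e b (un (sc k)) y).2 ⟨k, l, un_length _, m⟩
  rw [w]
  cases b
  · exact (r _).1 ⟨y, this⟩
  · exact (r _).2 ⟨y, this⟩

theorem ae_co : ∀ᵐ A ∂mu, Cl.DisjCoNP A := by
  let Hs : ℕ → ℕ → Bool → Set Om := fun a h b => Has (a ^ 4 - h) (side b (a ^ 4))
  let Fl : (Bool → L) → ℕ → ℕ → Set Om := fun c a h =>
    {A | ∃ b, A ∉ Hs a h b ∧ A ∈ Acc (VV (c b) a h)}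
  have d1 : ∀ k h b, h ≤ k → Dep (lo (sc (k + 1))) (Hs (sc k) h b) := fun k h b l =>
    dep_has_lo len_side (by have := room l; omega)
  have H := fun c => bc_main (Fl := fun k => Fl c (sc k))
    (tb := fun k h => {A | ∀ b, A ∉ Hs (sc k) h b})
    (TB := fun k h => {A | ∀ b, A ∉ Acc (VV (c b) (sc k) h)}) sc_mono.monotone
    (fun k h l A B e ⟨b, x, y⟩ => ⟨b, (d1 k h b l).compl A B e x, dep_acc _ _ _ A B e y⟩)
    (fun k h l A B e x b => (d1 k h b l).compl A B e (x b))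
    (fun k h _ A B e x b => (dep_has_hi len_side (low _)).compl A B e (x b))
    (fun h => let ⟨r, hr, H⟩ := risk_co h; ⟨r, hr, (sc_top.eventually_gt_atTop h).mono fun k x =>
      H _ (x.trans_le (Nat.le_self_pow (by omega) _))⟩) 4
    ((sc_top.eventually_ge_atTop 2).mono fun k x h l P hP => ineq_co hP (low _)
      (fun b => (tree_vv _ _ _).acc) (fun b => (dep_acc _ _ _).fd) (num1 x (le_sc k))
      (l.trans ((le_sc k).trans (Nat.le_self_pow (by omega) _))))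
  filter_upwards [ae_all_iff.2 H] with A H
  rintro ⟨C₀, C₁, h0, h1, hd, hC⟩
  obtain ⟨c, hc⟩ := codes (D := fun b => cond b C₁ᶜ C₀ᶜ) fun b => by cases b <;> assumption
  obtain ⟨e1, e2⟩ := H c (hc.mono fun k x y => Set.disjoint_left.1 hd
    (not_not.1 (mt (x false _).2 (y false))) (not_not.1 (mt (x true _).2 (y true))))
  obtain ⟨K, hK⟩ := eventually_atTop.1 e1
  have hF : BF A fun a h _ => A ∈ Fl c a h := (((zr_co false).bf.not.and (bf_acc (c false))).or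
    ((zr_co true).bf.not.and (bf_acc (c true)))).of_iff fun _ _ _ => by
      simp only [Fl, Hs, Set.mem_ofPred_eq, Bool.exists_bool]
  choose S hS e using fun b => test_rel hF (zr_co b) K
  have e3 : ∀ b k x, K ≤ k → x.length = sc k → ((∃ y, S b x y) ↔
      A ∈ Hs (sc k) (lev (fun k => Fl c (sc k)) A k) b) := fun b k x l m =>
    exists_congr fun y => (e b x y).trans ⟨fun ⟨k', _, a2, a3⟩ => by
      obtain rfl : k = k' := sc_mono.injective (m.symm.trans a2)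
      exact a3, fun a => ⟨k, l, m, a⟩⟩
  obtain ⟨f, hf, r⟩ := hC ({x | ¬ ∃ k, K ≤ k ∧ x.length = sc k} ∪ {x | ∃ y, S false x y})ᶜ
    ({x | ¬ ∃ k, K ≤ k ∧ x.length = sc k} ∪ {x | ∃ y, S true x y})ᶜ
    (by simp only [compl_compl]; exact U.InNP.union (scale_co hF K) (inNP_ex (hS false)))
    (by simp only [compl_compl]; exact U.InNP.union (scale_co hF K) (inNP_ex (hS true)))
    (Set.disjoint_left.2 fun x a a' => by
      obtain ⟨k, a1, a2⟩ := not_not.1 (not_or.1 a).1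
      exact hK k a1 fun b => mt (e3 b k x a1 a2).2 (by cases b; exacts [(not_or.1 a).2, (not_or.1 a').2]))
  obtain ⟨k, ⟨x, l⟩, ⟨b, m, z⟩, w⟩ := defeat (hc.and (eventually_ge_atTop K)) e2 hf
  have z' := (x b _).1 z
  have m' := mt (e3 b k (un (sc k)) l (un_length _)).1 m
  rw [w] at z'
  cases b
  · exact z' ((r _).1 (not_or.2 ⟨not_not.2 ⟨k, l, un_length _⟩, m'⟩))
  · exact z' ((r _).2 (not_or.2 ⟨not_not.2 ⟨k, l, un_length _⟩, m'⟩))

theorem ae_up : ∀ᵐ A ∂mu, Cl.HypUP A := by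
  let Fl : L → ℕ → ℕ → Set Om := fun c a h =>
    {A | ¬ (A ∈ Has (a ^ 4 + (h + 2)) (strs (a ^ 4 + 1)) ↔ A ∈ Acc (VV c a h))}
  have H := fun c => bc_main (Fl := fun k => Fl c (sc k))
    (tb := fun k h => Two (sc k ^ 4 + (h + 2)) (strs (sc k ^ 4 + 1)))
    (TB := fun k h => Amb (VV c (sc k) h)) sc_mono.monotone
    (fun k h l A B e x y => x (((dep_has_lo len_strs (room l)).iff e).trans
      (y.trans ((dep_acc _ _ _).iff e).symm)))
    (fun k h l => dep_two_lo len_strs (room l)) (fun k h _ => dep_two_hi len_strs (low _))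
    (fun h => let ⟨r, hr, H⟩ := risk_up (h + 2); ⟨r, hr, Eventually.of_forall fun k => H _⟩) 3
    ((sc_top.eventually_ge_atTop 2).mono fun k x h _ P hP => ineq_up hP (low _)
      (tree_vv _ _ _) (dep_acc _ _ _).fd (dep_amb _ _ _).fd (num1 x (le_sc k)))
  filter_upwards [ae_all_iff.2 H] with A H
  rintro ⟨C, ⟨T, hT, eT, uT⟩, hC⟩
  obtain ⟨c, hc⟩ := vv_iff hT
  replace hc := sc_top.eventually hc
  obtain ⟨e1, e2⟩ := H c (hc.mono fun k x ⟨w, w', d, y, y'⟩ =>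
    d (uT _ _ _ ((x _ w).1 y) ((x _ w').1 y')))
  obtain ⟨K, hK⟩ := eventually_atTop.1 e1
  have hF : BF A fun a h _ => A ∈ Fl c a h := ((zr_up.bf.and (bf_acc c).not).or
    (zr_up.bf.not.and (bf_acc c))).of_iff fun _ _ _ => by simp only [Fl, Set.mem_ofPred_eq]; tauto
  obtain ⟨S, hS, e⟩ := test_rel hF zr_up K
  obtain ⟨f, hf, r⟩ := hC {x | ∃ y, S x y} ⟨S, hS, fun _ => Iff.rfl, fun x y y' a a' => by
    obtain ⟨k, a1, a2, a3, a4⟩ := (e _ _).1 a
    obtain ⟨k', -, a5, a6, a7⟩ := (e _ _).1 a'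
    obtain rfl : k = k' := sc_mono.injective (a2.symm.trans a5)
    exact by_contra fun d => hK k a1 ⟨y, a3, y', a6, d, a4, a7⟩⟩
  obtain ⟨k, ⟨x, l⟩, z, w⟩ := defeat (hc.and (eventually_ge_atTop K)) e2 hf
  refine z (Iff.trans (exists_congr fun y => ?_) ((r (un (sc k))).trans
    ((eT _).trans (exists_congr fun y => by rw [← w]; exact (x _ y).symm))))
  refine Iff.trans ⟨fun a => ⟨k, l, un_length _, a⟩, fun ⟨k', _, a2, a3⟩ => ?_⟩ (e _ y).symm
  obtain rfl : k = k' := sc_mono.injective ((un_length _).symm.trans a2)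
  exact a3

end Pool.Agent.Lib.MP_2c6a5a_lc.RO
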