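import Mathlib

/-! The uniform measure on oracles: independence and planting of zero blocks. -/

namespace Pool.Agent.Lib.MP_2c6a5a_lc.RO

open MeasureTheory ProbabilityTheory Set
open scoped ENNReal

abbrev L := List Bool
abbrev Om := List Bool → Bool

/-- the uniform measure on oracles -/
noncomputable def mu : Measure Om :=
  Measure.infinitePi fun _ : List Bool => (PMF.uniformOfFintype Bool).toMeasure

instance : IsProbabilityMeasure mu := by unfold mu; infer_instance

/-- the event depends only on the values on `S` -/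
def Dep (S : Set L) (E : Set Om) : Prop := ∀ A B : Om, (∀ s ∈ S, A s = B s) → A ∈ E → B ∈ E

variable {S T : Set L} {E F : Set Om}

theorem Dep.mono (h : Dep S E) (hs : S ⊆ T) : Dep T E :=
  fun A B e => h A B fun s m => e s (hs m)

theorem Dep.iff (h : Dep S E) {A B : Om} (e : ∀ s ∈ S, A s = B s) : A ∈ E ↔ B ∈ E :=
  ⟨h A B e, h B A fun s m => (e s m).symm⟩

theorem Dep.compl (h : Dep S E) : Dep S Eᶜ := fun _ _ e a b => a ((h.iff e).2 b)

theorem Dep.inter (h : Dep S E) (h' : Dep S F) : Dep S (E ∩ F) :=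
  fun A B e a => ⟨h A B e a.1, h' A B e a.2⟩

theorem Dep.union (h : Dep S E) (h' : Dep S F) : Dep S (E ∪ F) :=
  fun A B e a => a.imp (h A B e) (h' A B e)

theorem dep_univ : Dep S univ := fun _ _ _ _ => trivial

/-- finitely determined events -/
def FD (E : Set Om) : Prop := ∃ S : Finset L, Dep S E

theorem FD.compl (h : FD E) : FD Eᶜ := let ⟨S, h⟩ := h; ⟨S, h.compl⟩

theorem FD.inter (h : FD E) (h' : FD F) : FD (E ∩ F) :=
  let ⟨S, h⟩ := h
  let ⟨T, h'⟩ := h'
  ⟨S ∪ T, (h.mono (by simp)).inter (h'.mono (by simp))⟩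

theorem FD.union (h : FD E) (h' : FD F) : FD (E ∪ F) :=
  let ⟨S, h⟩ := h
  let ⟨T, h'⟩ := h'
  ⟨S ∪ T, (h.mono (by simp)).union (h'.mono (by simp))⟩

theorem fd_univ : FD univ := ⟨∅, dep_univ⟩

theorem Dep.eq_pre {S : Finset L} (h : Dep S E) :
    E = (fun (A : Om) (i : S) => A i) ⁻¹' ((fun (A : Om) (i : S) => A i) '' E) := by
  ext A
  refine ⟨fun a => ⟨A, a, rfl⟩, fun ⟨B, b, e⟩ => h B A (fun s m => congrFun e ⟨s, m⟩) b⟩

theorem FD.meas (h : FD E) : MeasurableSet E := by
  obtain ⟨S, h⟩ := h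
  rw [h.eq_pre]
  exact (measurable_pi_lambda _ fun i => measurable_pi_apply _) (Set.toFinite _).measurableSet

theorem indep0 {S T : Finset L} (hE : Dep S E) (hF : Dep T F) (hd : Disjoint S T) :
    mu (E ∩ F) = mu E * mu F := by
  have h1 : iIndepFun (fun (i : L) (A : Om) => A i) mu :=
    iIndepFun_infinitePi (X := fun _ b => b) fun _ => measurable_id
  have h2 := (h1.indepFun_finset S T hd fun i => measurable_pi_apply i).measure_inter_preimage_eq_mul
    ((fun (A : Om) (i : S) => A i) '' E) ((fun (A : Om) (i : T) => A i) '' F)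
    (Set.toFinite _).measurableSet (Set.toFinite _).measurableSet
  rwa [← hE.eq_pre, ← hF.eq_pre] at h2

theorem Dep.both (h : Dep S E) (h' : Dep T E) : Dep (S ∩ T) E := by
  classical
  intro A B e a
  refine h' (fun s => if s ∈ S then A s else B s) B (fun s m => ?_)
    (h A _ (fun s m => by simp [m]) a)
  by_cases c : s ∈ S
  · simp [c, e s ⟨c, m⟩]
  · simp [c]

theorem indep (hE : Dep S E) (hF : Dep Sᶜ F) (fE : FD E) (fF : FD F) :
    mu (E ∩ F) = mu E * mu F := by
  classical
  obtain ⟨U, hU⟩ := fE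
  obtain ⟨V, hV⟩ := fF
  refine indep0 (S := U.filter (· ∈ S)) (T := V.filter (· ∉ S)) ((hU.both hE).mono ?_)
    ((hV.both hF).mono ?_) ?_
  · intro s m; simpa using m
  · intro s m; simpa using m
  · exact Finset.disjoint_left.2 fun s a b => (Finset.mem_filter.1 b).2 (Finset.mem_filter.1 a).2

/-- the oracle vanishes on `S` -/
def Z (S : Finset L) : Set Om := {A | ∀ s ∈ S, A s = false}

theorem dep_Z (S : Finset L) : Dep S (Z S) := fun _ _ e a s m => (e s m).symm.trans (a s m)

theorem fd_Z (S : Finset L) : FD (Z S) := ⟨S, dep_Z S⟩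

theorem mu_Z (S : Finset L) : mu (Z S) = 2⁻¹ ^ S.card := by
  have : Z S = Set.pi S fun _ => {false} := by ext A; simp [Z]
  rw [this, mu, Measure.infinitePi_pi _ fun _ _ => MeasurableSet.singleton _]
  simp

/-- the oracle with `S` set to zero -/
def zr (S : Finset L) (A : Om) : Om := fun s => if s ∈ S then false else A s

theorem zr_mem (S : Finset L) (A : Om) : zr S A ∈ Z S := fun s m => by simp [zr, m]

theorem zr_out {S : Finset L} {s : L} (h : s ∉ S) (A : Om) : zr S A s = A s := if_neg h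

theorem zr_self {S : Finset L} {A : Om} (h : A ∈ Z S) : zr S A = A := by
  funext s
  by_cases c : s ∈ S
  · simp [zr, c, h s c]
  · exact zr_out c A

theorem Dep.zr (h : Dep T E) (S : Finset L) : Dep T (zr S ⁻¹' E) :=
  fun A B e a => h _ _ (fun s m => by simp only [RO.zr, e s m]) a

theorem FD.zr (h : FD E) (S : Finset L) : FD (zr S ⁻¹' E) := let ⟨U, h⟩ := h; ⟨U, h.zr S⟩

theorem plant (S : Finset L) (h : FD E) : mu (Z S ∩ E) = 2⁻¹ ^ S.card * mu (zr S ⁻¹' E) := by
  have e : Z S ∩ E = Z S ∩ zr S ⁻¹' E := by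
    ext A
    exact and_congr_right fun a => by rw [mem_preimage, zr_self a]
  rw [e, indep (dep_Z S) _ (fd_Z S) (h.zr S), mu_Z]
  intro A B e a
  have : zr S A = zr S B := by
    funext s
    by_cases c : s ∈ S
    · simp [zr, c]
    · simp [zr, c, e s c]
  rwa [mem_preimage, ← this]

open Classical in
theorem sum_eq_count {ι : Type*} (J : Finset ι) (G : ι → Set Om) (hG : ∀ j ∈ J, FD (G j)) :
    ∑ j ∈ J, mu (G j) = ∫⁻ A, ((J.filter fun j => A ∈ G j).card : ℝ≥0∞) ∂mu := by
  have : ∀ A, ((J.filter fun j => A ∈ G j).card : ℝ≥0∞) = ∑ j ∈ J, (G j).indicator 1 A := by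
    intro A
    simp [Set.indicator]
  simp only [this]
  rw [lintegral_finsetSum' _ fun j m => (measurable_one.indicator (hG j m).meas).aemeasurable]
  exact Finset.sum_congr rfl fun j m => (lintegral_indicator_one (hG j m).meas).symm

open Classical in
theorem sum_le_of_count {ι : Type*} (J : Finset ι) (G : ι → Set Om) (hG : ∀ j ∈ J, FD (G j))
    (hE : FD E) (t : ℕ) (h : ∀ A ∉ E, (J.filter fun j => A ∈ G j).card ≤ t) :
    ∑ j ∈ J, mu (G j) ≤ J.card * mu E + t := by
  rw [sum_eq_count J G hG]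
  calc _ ≤ ∫⁻ A, (J.card * E.indicator 1 A + t : ℝ≥0∞) ∂mu := lintegral_mono fun A => by
        by_cases c : A ∈ E
        · simp only [indicator_of_mem c, Pi.one_apply, mul_one]
          exact le_add_right (by exact_mod_cast Finset.card_filter_le _ _)
        · exact le_add_left (by exact_mod_cast h A c)
    _ = _ := by
        rw [lintegral_add_right _ measurable_const, lintegral_const_mul _
          (measurable_one.indicator hE.meas), lintegral_indicator_one hE.meas]
        simp

open Classical in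
theorem le_sum_of_count {ι : Type*} (J : Finset ι) (G : ι → Set Om) (hG : ∀ j ∈ J, FD (G j))
    (hE : FD E) (t : ℕ) (h : ∀ A ∈ E, t ≤ (J.filter fun j => A ∈ G j).card) :
    t * mu E ≤ ∑ j ∈ J, mu (G j) := by
  rw [sum_eq_count J G hG, ← lintegral_indicator_one hE.meas, ← lintegral_const_mul _
    (measurable_one.indicator hE.meas)]
  refine lintegral_mono fun A => ?_
  by_cases c : A ∈ E
  · simp only [indicator_of_mem c, Pi.one_apply, mul_one]
    exact_mod_cast h A c
  · simp [indicator_of_notMem c]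

/-- strings shorter than `m` -/
def lo (m : ℕ) : Set L := {s | s.length < m}

theorem lo_mono {m n : ℕ} (h : m ≤ n) : lo m ⊆ lo n := fun _ a => lt_of_lt_of_le a h

theorem Dep.fd {m : ℕ} (h : Dep (lo m) E) : FD E :=
  ⟨(List.finite_length_lt Bool m).toFinset, h.mono fun s a => by simpa [lo] using a⟩

end Pool.Agent.Lib.MP_2c6a5a_lc.RO
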