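import Pool.Agent.Lib.MP_2c6a5a_lc.RO.Ineq

/-! The inequality for unambiguous computations. -/

namespace Pool.Agent.Lib.MP_2c6a5a_lc.RO

open MeasureTheory Set
open scoped ENNReal

/-- two blocks are zero -/
def Two (l : ℕ) (J : Finset L) : Set Om :=
  {A | ∃ y ∈ J, ∃ y' ∈ J, y ≠ y' ∧ A ∈ Z (blk l y) ∧ A ∈ Z (blk l y')}

variable {n h l m t k a : ℕ} {y : L} {J : Finset L} {P : Set Om} {V : L → Set Om}

theorem dep_two : Dep (reg l J) (Two l J) := fun A B e ⟨y, a, y', a', c, b, b'⟩ =>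
  ⟨y, a, y', a', c, dep_Z _ A B (fun s c => e s ⟨y, a, c⟩) b,
    dep_Z _ A B (fun s c => e s ⟨y', a', c⟩) b'⟩

theorem fd_two : FD (Two l J) :=
  ⟨J.biUnion (blk l), dep_two.mono fun s ⟨y, a, b⟩ => by simpa using ⟨y, a, b⟩⟩

theorem dep_two_lo (hJ : Len m J) (ha : m + l ≤ a) : Dep (lo a) (Two l J) :=
  dep_two.mono fun _ ⟨y, c, d⟩ => lt_of_lt_of_le (hJ y c ▸ (blk_len d).2) ha

theorem dep_two_hi (hJ : Len m J) (ha : a ≤ m) : Dep (lo a)ᶜ (Two l J) :=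
  dep_two.mono fun _ ⟨y, c, d⟩ => not_lt.2 (ha.trans (hJ y c ▸ (blk_len d).1))

/-- the events `V w` are decided by decision trees of depth `t` -/
def Tree (t : ℕ) (V : L → Set Om) : Prop :=
  ∃ Q : L → Om → Finset L, ∀ w A, (Q w A).card ≤ t ∧
    ∀ B : Om, (∀ s ∈ Q w A, B s = A s) → (A ∈ V w → B ∈ V w) ∧ Q w B = Q w A

/-- some witness is accepted -/
def Acc (V : L → Set Om) : Set Om := {A | ∃ w, A ∈ V w}

/-- two witnesses are accepted -/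
def Amb (V : L → Set Om) : Set Om := {A | ∃ w w', w ≠ w' ∧ A ∈ V w ∧ A ∈ V w'}

theorem Tree.acc (hV : Tree t V) : Cert t (Acc V) := fun A ⟨w, b⟩ =>
  let ⟨Q, H⟩ := hV
  ⟨Q w A, (H w A).1, fun B e => ⟨w, ((H w A).2 B e).1 b⟩⟩

theorem Tree.amb (hV : Tree t V) : Cert (2 * t) (Amb V) := fun A ⟨w, w', c, b, b'⟩ =>
  let ⟨Q, H⟩ := hV
  ⟨Q w A ∪ Q w' A, (Finset.card_union_le _ _).trans (by have := (H w A).1; have := (H w' A).1; omega),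
    fun B e => ⟨w, w', c, ((H w A).2 B fun s d => e s (by simp [d])).1 b,
      ((H w' A).2 B fun s d => e s (by simp [d])).1 b'⟩⟩

open Classical in
theorem Tree.pairs (hV : Tree t V) (hJ : Len m J) (A : Om) :
    ((J ×ˢ J).filter fun p : L × L => A ∈ (Acc V)ᶜ ∩ zr (blk l p.1) ⁻¹' Acc V ∩
      zr (blk l p.2) ⁻¹' Acc V ∩ zr (blk l p.1 ∪ blk l p.2) ⁻¹' (Amb V)ᶜ).card ≤ 2 * J.card * t := by
  obtain ⟨Q, H⟩ := hV
  let w : Om → L := fun B => epsilon fun w => B ∈ V w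
  have hw : ∀ B ∈ Acc V, B ∈ V (w B) := fun B b => epsilon_spec (p := fun w => B ∈ V w) b
  let S : Finset (L × L) := J.biUnion fun y => (J.filter fun y' =>
    ∃ s ∈ Q (w (zr (blk l y) A)) (zr (blk l y) A), s ∈ blk l y').image (Prod.mk y)
  have hS : S.card ≤ J.card * t := Finset.card_biUnion_le.trans (by
    simpa using Finset.sum_le_card_nsmul J _ t fun y _ =>
      Finset.card_image_le.trans ((card_meet hJ _).trans (H _ _).1))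
  refine le_trans (Finset.card_le_card (t := S ∪ S.image Prod.swap) ?_)
    ((Finset.card_union_le _ _).trans (by
      have := Finset.card_image_le (s := S) (f := Prod.swap); rw [mul_assoc]; omega))
  rintro ⟨y, y'⟩ b
  obtain ⟨b, ⟨⟨c0, c1⟩, c2⟩, c3⟩ := Finset.mem_filter.1 b
  obtain ⟨b1, b2⟩ := Finset.mem_product.1 b
  by_contra d
  have d1 : ∀ s ∈ Q (w (zr (blk l y) A)) (zr (blk l y) A), s ∉ blk l y' := fun s e f =>
    d (Finset.mem_union_left _ (Finset.mem_biUnion.2 ⟨y, b1, Finset.mem_image.2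
      ⟨y', Finset.mem_filter.2 ⟨b2, s, e, f⟩, rfl⟩⟩))
  have d2 : ∀ s ∈ Q (w (zr (blk l y') A)) (zr (blk l y') A), s ∉ blk l y := fun s e f =>
    d (Finset.mem_union_right _ (Finset.mem_image.2 ⟨(y', y), Finset.mem_biUnion.2 ⟨y', b2,
      Finset.mem_image.2 ⟨y, Finset.mem_filter.2 ⟨b1, s, e, f⟩, rfl⟩⟩, rfl⟩))
  have e1 := (H (w (zr (blk l y) A)) (zr (blk l y) A)).2 (zr (blk l y ∪ blk l y') A)
    fun s e => by simp [zr, d1 s e]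
  have e2 := (H (w (zr (blk l y') A)) (zr (blk l y') A)).2 (zr (blk l y ∪ blk l y') A)
    fun s e => by simp [zr, d2 s e]
  have e3 : w (zr (blk l y) A) = w (zr (blk l y') A) :=
    by_contra fun f => c3 ⟨_, _, f, e1.1 (hw _ c1), e2.1 (hw _ c2)⟩
  refine c0 ⟨_, ((H _ _).2 A fun s e => (zr_out (d2 s ?_) A).symm).1 (hw _ c1)⟩
  rwa [← e2.2, ← e3, e1.2]

theorem exactly_two (hP : Dep (lo a) P) (hJ : Len m J) (ha : a ≤ m) (hV : Tree t V)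
    (f1 : FD (Acc V)) (f2 : FD (Amb V)) :
    mu {A | ∃ p ∈ J.offDiag, A ∈ Z (blk l p.1 ∪ blk l p.2) ∩
      (P ∩ (Amb V)ᶜ ∩ (Has l ((J.erase p.1).erase p.2))ᶜ)} ≤
      (2⁻¹ ^ l * J.card) ^ 2 * (2 * 2⁻¹ ^ l + mu (P ∩ {A | ¬ (A ∈ Has l J ↔ A ∈ Acc V)})) +
        2 * (2⁻¹ ^ l * J.card) * (mu (P ∩ {A | ¬ (A ∈ Has l J ↔ A ∈ Acc V)}) + 2⁻¹ ^ l * t) := by
  classical
  set F := P ∩ {A | ¬ (A ∈ Has l J ↔ A ∈ Acc V)}
  let D : L → Set Om := fun y => zr (blk l y) ⁻¹' (P ∩ (Acc V)ᶜ ∩ (Has l (J.erase y))ᶜ)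
  let R : L × L → Set Om := fun p => (Acc V)ᶜ ∩ zr (blk l p.1) ⁻¹' Acc V ∩
    zr (blk l p.2) ⁻¹' Acc V ∩ zr (blk l p.1 ∪ blk l p.2) ⁻¹' (Amb V)ᶜ
  have hD : 2⁻¹ ^ l * ∑ y ∈ J, mu (D y) ≤ mu F :=
    (sum_single (hP.fd.inter f1.compl)).trans (measure_mono fun A b => ⟨b.1.1, fun c => b.1.2 (c.1 b.2)⟩)
  have hR : ∑ p ∈ J ×ˢ J, mu (R p) ≤ 2 * J.card * t := by
    have := sum_le_of_count (J ×ˢ J) R (fun p _ => ((f1.compl.inter (f1.zr _)).inter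
      (f1.zr _)).inter (f2.compl.zr _)) fd_univ.compl (2 * J.card * t) fun A _ => by convert hV.pairs (l := l) hJ A
    simpa using this
  have hD' : ∀ A, A ∈ P → A ∉ Has l J → ∀ y ∈ J, zr (blk l y) A ∉ Acc V → A ∈ D y :=
    fun A b c y d e => ⟨⟨(hP.out (hJ y d ▸ ha)).zr_iff.2 b, e⟩, fun f => c (by
      obtain ⟨y', g, f⟩ := (dep_has_out (hJ.sub (J.erase_subset y)) (hJ y d) (by simp)).zr_iff.1 f
      exact ⟨y', J.erase_subset y g, f⟩)⟩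
  have h1 : ∀ p ∈ J.offDiag, mu (Z (blk l p.1 ∪ blk l p.2) ∩
      (P ∩ (Amb V)ᶜ ∩ (Has l ((J.erase p.1).erase p.2))ᶜ)) ≤ (2⁻¹ ^ l) ^ 2 *
        (2 * 2⁻¹ ^ l + mu F + mu (D p.1) + mu (D p.2) + mu (R p)) := by
    rintro ⟨y, y'⟩ b
    obtain ⟨b1, b2, b3⟩ := Finset.mem_offDiag.1 b
    have hs := (hJ.sub (J.erase_subset y)).sub ((J.erase y).erase_subset y')
    rw [plant _ ((hP.fd.inter f2.compl).inter fd_has.compl), Finset.card_union_of_disjoint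
      (Finset.disjoint_left.2 fun s c d => b3 (blk_eq ((hJ _ b1).trans (hJ _ b2).symm) c d)),
      card_blk, card_blk, pow_add, ← sq]
    refine mul_le_mul_right (le_trans (measure_mono (t := Z (blk l y) ∪ Z (blk l y') ∪ F ∪ D y ∪
      D y' ∪ R (y, y')) ?_) ?_) _
    · rintro A ⟨⟨c1, c2⟩, c3⟩
      have e : ∀ G, Dep (blk l y : Set L)ᶜ G → Dep (blk l y' : Set L)ᶜ G →
          (zr (blk l y ∪ blk l y') A ∈ G ↔ A ∈ G) := fun G g g' =>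
        Dep.zr_iff ((g.both g').mono (by rw [Finset.coe_union, compl_union]))
      have c4 : A ∈ P := (e P (hP.out (hJ _ b1 ▸ ha)) (hP.out (hJ _ b2 ▸ ha))).1 c1
      by_contra d
      simp only [mem_union, not_or] at d
      obtain ⟨⟨⟨⟨⟨d1, d2⟩, d3⟩, d4⟩, d5⟩, d6⟩ := d
      have c5 : A ∉ Has l J := fun ⟨z, f, g⟩ => c3 ((e _ (dep_has_out hs (hJ _ b1) (by simp))
        (dep_has_out hs (hJ _ b2) (by simp))).2 ⟨z, Finset.mem_erase.2 ⟨fun i => d2 (i ▸ g),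
          Finset.mem_erase.2 ⟨fun i => d1 (i ▸ g), f⟩⟩, g⟩)
      exact d6 ⟨⟨⟨fun f => d3 ⟨c4, fun g => c5 (g.2 f)⟩, by_contra fun f => d4 (hD' A c4 c5 _ b1 f)⟩,
        by_contra fun f => d5 (hD' A c4 c5 _ b2 f)⟩, c2⟩
    · iterate 4 refine (measure_union_le _ _).trans (add_le_add ?_ le_rfl)
      refine (measure_union_le _ _).trans (le_of_eq ?_)
      rw [mu_Z, mu_Z, card_blk, card_blk, two_mul]
  calc _ ≤ mu (⋃ p ∈ J.offDiag, Z (blk l p.1 ∪ blk l p.2) ∩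
        (P ∩ (Amb V)ᶜ ∩ (Has l ((J.erase p.1).erase p.2))ᶜ)) :=
        measure_mono (by rintro A ⟨p, b, c⟩; exact mem_biUnion b c)
    _ ≤ ∑ p ∈ J ×ˢ J, (2⁻¹ ^ l) ^ 2 * (2 * 2⁻¹ ^ l + mu F + mu (D p.1) + mu (D p.2) + mu (R p)) :=
        (measure_biUnion_finset_le _ _).trans ((Finset.sum_le_sum h1).trans
          (Finset.sum_le_sum_of_subset fun p b => Finset.mem_product.2
            ⟨(Finset.mem_offDiag.1 b).1, (Finset.mem_offDiag.1 b).2.1⟩))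
    _ = (2⁻¹ ^ l * J.card) ^ 2 * (2 * 2⁻¹ ^ l + mu F) + 2 * (2⁻¹ ^ l * J.card) *
          (2⁻¹ ^ l * ∑ y ∈ J, mu (D y)) + (2⁻¹ ^ l) ^ 2 * ∑ p ∈ J ×ˢ J, mu (R p) := by
        rw [← Finset.mul_sum, Finset.sum_add_distrib, Finset.sum_add_distrib, Finset.sum_add_distrib,
          Finset.sum_const, Finset.card_product, Finset.sum_product, Finset.sum_product_right]
        simp only [Finset.sum_const, nsmul_eq_mul, ← Finset.mul_sum, Nat.cast_mul]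
        ring
    _ ≤ (2⁻¹ ^ l * J.card) ^ 2 * (2 * 2⁻¹ ^ l + mu F) + 2 * (2⁻¹ ^ l * J.card) * mu F +
          (2⁻¹ ^ l) ^ 2 * (2 * J.card * t) := by gcongr
    _ = _ := by ring

theorem ineq_up (hP : Dep (lo a) P) (ha : a ≤ n + 1) (hV : Tree t V) (f1 : FD (Acc V))
    (f2 : FD (Amb V)) (hn : (2 * t + 1) * 2 ^ k ≤ 2 ^ n) :
    mu (P ∩ Two (n + (h + 2)) (strs (n + 1)) ∩ (Amb V)ᶜ) ≤ 2⁻¹ ^ h * ((3 : ℕ) *
      mu (P ∩ {A | ¬ (A ∈ Has (n + (h + 2)) (strs (n + 1)) ↔ A ∈ Acc V)}) + 2⁻¹ ^ k) := by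
  have h2 := exactly_two (l := n + (h + 2)) hP len_strs ha hV f1 f2
  have h3 := plant_up (l := n + (h + 2)) (len_strs (n := n + 1)) hV.amb f2 (hP.fd.inter fd_two)
    (fun y => P ∩ Two (n + (h + 2)) ((strs (n + 1)).erase y)) (fun _ _ => hP.fd.inter fd_two)
    (fun y c => (hP.out (len_strs y c ▸ ha)).inter (dep_two.mono fun _ ⟨y', d, e⟩ f =>
      (Finset.mem_erase.1 d).1 (blk_eq ((len_strs _ (Finset.mem_erase.1 d).2).trans
        (len_strs y c).symm) e f)))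
    fun y _ A ⟨b, z, c, z', c', d⟩ => ⟨b, z, Finset.erase_subset _ _ c, z', Finset.erase_subset _ _ c', d⟩
  have h4 : mu (P ∩ Two (n + (h + 2)) (strs (n + 1)) ∩ (Amb V)ᶜ) ≤ _ :=
    le_trans (measure_mono ?_) ((measure_union_le _ _).trans (add_le_add h2 h3))
  swap
  · rintro A ⟨⟨b, y, c, y', c', d, e, e'⟩, f⟩
    by_cases g : A ∈ Has (n + (h + 2)) (((strs (n + 1)).erase y).erase y')
    · obtain ⟨z, g, g'⟩ := g
      obtain ⟨g1, g⟩ := Finset.mem_erase.1 g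
      obtain ⟨g2, g⟩ := Finset.mem_erase.1 g
      exact Or.inr ⟨f, z, g, g', b, y, Finset.mem_erase.2 ⟨g2.symm, c⟩, y',
        Finset.mem_erase.2 ⟨g1.symm, c'⟩, d, e, e'⟩
    · exact Or.inl ⟨(y, y'), Finset.mem_offDiag.2 ⟨c, c', d⟩,
        fun s i => (Finset.mem_union.1 i).elim (e s) (e' s), ⟨b, f⟩, g⟩
  have i2 : (2 : ℝ≥0∞) * 2⁻¹ = 1 := ENNReal.mul_inv_cancel (by simp) (by simp)
  have hu : (2⁻¹ : ℝ≥0∞) ^ (n + (h + 2)) * ((strs (n + 1)).card : ℕ) = 2⁻¹ ^ h * 2⁻¹ := by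
    rw [card_strs]
    push_cast
    calc _ = (2⁻¹ : ℝ≥0∞) ^ h * 2⁻¹ * (2⁻¹ ^ (n + 1) * 2 ^ (n + 1)) := by ring
      _ = _ := by rw [half_pow, mul_one]
  rw [mul_add (2⁻¹ ^ (n + (h + 2))), ← mul_assoc (2⁻¹ ^ (n + (h + 2))), hu,
    show (2⁻¹ : ℝ≥0∞) ^ (n + (h + 2)) = 2⁻¹ ^ n * 2⁻¹ ^ h * (2⁻¹ * 2⁻¹) by ring] at h4
  refine le_trans ?_ (mul_le_mul_right (add_le_add le_rfl (small hn)) _)
  have g1 : (2⁻¹ : ℝ≥0∞) ^ h ≤ 1 := pow_le_one₀ zero_le (by simp)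
  have i1 : (2⁻¹ : ℝ≥0∞) ≤ 1 := by simp
  have hw : mu (P ∩ Two (n + (h + 2)) (strs (n + 1)) ∩ (Amb V)ᶜ) ≠ ∞ := measure_ne_top _ _
  generalize mu (P ∩ Two (n + (h + 2)) (strs (n + 1)) ∩ (Amb V)ᶜ) = w at h4 hw
  generalize mu (P ∩ {A | ¬ (A ∈ Has (n + (h + 2)) (strs (n + 1)) ↔ A ∈ Acc V)}) = f at h4
  generalize (2⁻¹ : ℝ≥0∞) ^ h = g at h4 g1
  generalize (2⁻¹ : ℝ≥0∞) ^ n = e at h4
  generalize (2⁻¹ : ℝ≥0∞) = i at h4 i1 i2
  push_cast at h4 ⊢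
  refine ENNReal.le_of_add_le_add_right hw ?_
  calc w + w = 2 * w := by ring
    _ ≤ 2 * ((g * i) ^ 2 * (2 * (e * g * (i * i)) + f) + 2 * (g * i) * (f + e * g * (i * i) * t) +
        (g * i * w + e * g * (i * i) * (2 * t))) := by gcongr
    _ = g * (2 * i) * ((g * i) * ((2 * i) * (e * (g * i)) + f) + 2 * f + (2 * i) * (e * (g * i) * t) +
        (2 * i) * (e * t)) + g * (2 * i) * w := by ring
    _ ≤ g * 1 * (1 * 1 * (1 * (e * (1 * 1)) + f) + 2 * f + 1 * (e * (1 * 1) * t) + 1 * (e * t)) +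
        1 * 1 * w := by rw [i2]; gcongr
    _ = _ := by ring

theorem risk_up (h : ℕ) : ∃ r < 1, ∀ n, mu (Two (n + h) (strs (n + 1)))ᶜ ≤ r := by
  obtain ⟨r, hr, H⟩ := risk_np h
  refine ⟨r, hr, fun n => le_trans (measure_mono (compl_subset_compl.2 fun A b => ?_)) (H n)⟩
  obtain ⟨y, c, d⟩ := b false
  obtain ⟨y', c', d'⟩ := b true
  exact ⟨y, mem_strs.2 (len_side y c), y', mem_strs.2 (len_side y' c'),
    fun e => side_not c (e ▸ c'), d, d'⟩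

end Pool.Agent.Lib.MP_2c6a5a_lc.RO
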